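import Pool.Agent.SDF.Poly

/-!
Addition chains.
-/

set_option autoImplicit false

namespace Pool.Agent.SDF

namespace Chain

/-- The exponent `e` is at position `i` of the chain `l`. -/
def At (l : List (ℕ × ℕ)) (i e : ℕ) : Prop := i < l.length + 2 ∧ (exps l).getD i 0 = e

theorem at_snoc {l : List (ℕ × ℕ)} {i e : ℕ} (h : At l i e) (s : ℕ × ℕ) : At (l ++ [s]) i e := by
  refine ⟨by rw [List.length_append]; have := h.1; omega, ?_⟩
  rw [Poly.exps_snoc, Poly.getD_snoc, Poly.length_exps, if_neg (by have := h.1; omega)]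
  exact h.2

theorem at_append {l : List (ℕ × ℕ)} {i e : ℕ} (h : At l i e) (t : List (ℕ × ℕ)) :
    At (l ++ t) i e := by
  induction t using List.reverseRecOn with
  | nil => rw [List.append_nil]; exact h
  | append_singleton t s ih => rw [← List.append_assoc]; exact at_snoc ih s

theorem at_add {l : List (ℕ × ℕ)} {i j a b : ℕ} (h : At l i a) (h' : At l j b) :
    At (l ++ [(i, j)]) (l.length + 2) (a + b) := by
  refine ⟨by rw [List.length_append, List.length_singleton]; omega, ?_⟩
  rw [Poly.exps_snoc, Poly.getD_snoc, Poly.length_exps, if_pos rfl]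
  rw [h.2, h'.2]

theorem at_zero (l : List (ℕ × ℕ)) : At l 0 0 := by
  have h : At [] 0 0 := ⟨by simp, by simp [exps]⟩
  have := at_append h l
  rwa [List.nil_append] at this

theorem at_one (l : List (ℕ × ℕ)) : At l 1 1 := by
  have h : At [] 1 1 := ⟨by simp, by simp [exps]⟩
  have := at_append h l
  rwa [List.nil_append] at this

theorem mul {l : List (ℕ × ℕ)} {i e : ℕ} (h : At l i e) : ∀ m : ℕ, 1 ≤ m →
    ∃ (t : List (ℕ × ℕ)) (j : ℕ), t.length ≤ 2 * Nat.log 2 m ∧ At (l ++ t) j (m * e) := by
  intro m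
  induction m using Nat.strong_induction_on with
  | _ m ih =>
  intro hm
  by_cases h1 : m = 1
  · refine ⟨[], i, by simp, ?_⟩
    rw [h1, List.append_nil, one_mul]
    exact h
  · obtain ⟨t, j, ht, hj⟩ := ih (m / 2) (by omega) (by omega)
    have hlog : Nat.log 2 m = Nat.log 2 (m / 2) + 1 := by
      rw [Nat.log_of_one_lt_of_le (by norm_num) (by omega)]
    have h2 := at_add hj hj
    rcases Nat.even_or_odd m with hev | hodd
    · refine ⟨t ++ [(j, j)], (l ++ t).length + 2, ?_, ?_⟩
      · rw [List.length_append, List.length_singleton]; omega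
      · rw [← List.append_assoc]
        have hmm : m / 2 * e + m / 2 * e = m * e := by
          obtain ⟨q, rfl⟩ := hev
          have : (q + q) / 2 = q := by omega
          rw [this]; ring
        rw [← hmm]
        exact h2
    · have h4 : At (l ++ t ++ [(j, j)]) i e := at_append (at_append h t) _
      have h3 := at_add h2 h4
      refine ⟨t ++ [(j, j)] ++ [((l ++ t).length + 2, i)], (l ++ t ++ [(j, j)]).length + 2, ?_, ?_⟩
      · rw [List.length_append, List.length_append, List.length_singleton,
          List.length_singleton]; omega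
      · have hmm : m / 2 * e + m / 2 * e + e = m * e := by
          obtain ⟨q, rfl⟩ := hodd
          have : (2 * q + 1) / 2 = q := by omega
          rw [this]; ring
        rw [← hmm, ← List.append_assoc, ← List.append_assoc]
        exact h3

theorem mulpow {l : List (ℕ × ℕ)} {i e : ℕ} (h : At l i e) (m : ℕ) (hm : 1 ≤ m) (L : ℕ) :
    ∃ (t : List (ℕ × ℕ)) (j : ℕ), t.length ≤ L * (2 * Nat.log 2 m) ∧ At (l ++ t) j (m ^ L * e) := by
  induction L with
  | zero => exact ⟨[], i, by simp, by rw [List.append_nil, pow_zero, one_mul]; exact h⟩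
  | succ L ih =>
      obtain ⟨t, j, ht, hj⟩ := ih
      obtain ⟨t', j', ht', hj'⟩ := mul hj m hm
      refine ⟨t ++ t', j', ?_, ?_⟩
      · rw [List.length_append, add_mul, one_mul]; omega
      · rw [← List.append_assoc, pow_succ', mul_assoc]
        exact hj'

theorem Ep_zero (e : ℕ → ℕ) : Ep 0 e = 1 := by
  unfold Ep
  rw [Finset.filter_eq_empty_iff.2, Finset.prod_empty]
  intro q hq
  rw [Finset.mem_range] at hq
  have : q = 0 := by omega
  rw [this]
  exact Nat.not_prime_zero

theorem Ep_succ (y : ℕ) (e : ℕ → ℕ) :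
    Ep (y + 1) e = (if (y + 1).Prime then (y + 1) ^ e (y + 1) else 1) * Ep y e := by
  unfold Ep
  rw [Finset.range_add_one, Finset.filter_insert]
  split_ifs with h
  · rw [Finset.prod_insert]
    intro h'
    rw [Finset.mem_filter, Finset.mem_range] at h'
    omega
  · rw [one_mul]

/-- Products of prime powers. -/
theorem stage (y L : ℕ) (e : ℕ → ℕ) (he : ∀ q, e q ≤ L) (l : List (ℕ × ℕ)) : ∀ T ≤ y,
    ∃ (t : List (ℕ × ℕ)) (j : ℕ), t.length ≤ T * (L * (2 * Nat.log 2 y)) ∧
      At (l ++ t) j (Ep T e) := by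
  intro T
  induction T with
  | zero =>
      intro _
      refine ⟨[], 1, by simp, ?_⟩
      rw [List.append_nil, Ep_zero]
      exact at_one _
  | succ T ih =>
      intro hT
      obtain ⟨t, j, ht, hj⟩ := ih (by omega)
      rw [Ep_succ]
      by_cases hp : (T + 1).Prime
      · obtain ⟨t', j', ht', hj'⟩ := mulpow hj (T + 1) (by omega) (e (T + 1))
        refine ⟨t ++ t', j', ?_, ?_⟩
        · rw [List.length_append, add_mul, one_mul]
          have h1 : Nat.log 2 (T + 1) ≤ Nat.log 2 y := Nat.log_mono_right hT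
          have h2 : e (T + 1) * (2 * Nat.log 2 (T + 1)) ≤ L * (2 * Nat.log 2 y) :=
            Nat.mul_le_mul (he _) (Nat.mul_le_mul_left _ h1)
          omega
        · rw [if_pos hp, ← List.append_assoc]
          exact hj'
      · refine ⟨t, j, ?_, ?_⟩
        · rw [add_mul]
          omega
        · rw [if_neg hp, one_mul]
          exact hj

/-- Multiples. -/
theorem multiples {l : List (ℕ × ℕ)} {i M : ℕ} (h : At l i M) (k : ℕ) :
    ∃ (t : List (ℕ × ℕ)) (s : ℕ → ℕ), t.length ≤ k ∧ ∀ j ≤ k, At (l ++ t) (s j) (M * j) := by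
  induction k with
  | zero =>
      refine ⟨[], fun _ => 0, by simp, fun j hj => ?_⟩
      obtain rfl : j = 0 := by omega
      rw [mul_zero]
      exact at_zero _
  | succ k ih =>
      obtain ⟨t, s, ht, hs⟩ := ih
      have h1 := at_add (hs k le_rfl) (at_append h t)
      refine ⟨t ++ [(s k, i)], Function.update s (k + 1) ((l ++ t).length + 2), ?_,
        fun j hj => ?_⟩
      · rw [List.length_append, List.length_singleton]; omega
      · rw [← List.append_assoc]
        by_cases hjk : j = k + 1
        · subst hjk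
          rw [Function.update_self, mul_add, mul_one]
          exact h1
        · rw [Function.update_of_ne hjk]
          exact at_append (hs j (by omega)) _

/-- The lists of a family for the exponent `M`. -/
def IsFam (l : List (ℕ × ℕ)) (k M : ℕ) (F : List ℕ × List ℕ) : Prop :=
  ∃ b g : ℕ → ℕ, F = ((List.range k).map (fun j => g (j + 1)), (List.range k).map b) ∧
    (∀ i ≤ k, At l (b i) (M * i)) ∧ ∀ j ≤ k, At l (g j) (M * (k * j))

theorem IsFam.append {l : List (ℕ × ℕ)} {k M : ℕ} {F : List ℕ × List ℕ} (h : IsFam l k M F)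
    (t : List (ℕ × ℕ)) : IsFam (l ++ t) k M F := by
  obtain ⟨b, g, h1, h2, h3⟩ := h
  exact ⟨b, g, h1, fun i hi => at_append (h2 i hi) t, fun j hj => at_append (h3 j hj) t⟩

/-- One family. -/
theorem fam (y k L : ℕ) (e : ℕ → ℕ) (he : ∀ q, e q ≤ L) (l : List (ℕ × ℕ)) :
    ∃ (t : List (ℕ × ℕ)) (F : List ℕ × List ℕ),
      t.length ≤ y * (L * (2 * Nat.log 2 y)) + 2 * k ∧ IsFam (l ++ t) k (Ep y e) F := by
  obtain ⟨t₁, j, ht₁, hj⟩ := stage y L e he l y le_rfl
  obtain ⟨t₂, b, ht₂, hb⟩ := multiples hj k
  obtain ⟨t₃, g, ht₃, hg⟩ := multiples (hb k le_rfl) k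
  refine ⟨t₁ ++ t₂ ++ t₃, ((List.range k).map (fun j => g (j + 1)), (List.range k).map b), ?_,
    b, g, rfl, fun i hi => ?_, fun j hj => ?_⟩
  · rw [List.length_append, List.length_append]; omega
  · rw [← List.append_assoc, ← List.append_assoc]
    exact at_append (hb i hi) t₃
  · rw [← List.append_assoc, ← List.append_assoc, ← mul_assoc]
    exact hg j hj

/-- All families. -/
theorem build (y k L : ℕ) (cs : List (ℕ → ℕ)) (hcs : ∀ e ∈ cs, ∀ q, e q ≤ L) : ∃ P : Prog,
    P.steps.length ≤ cs.length * (y * (L * (2 * Nat.log 2 y)) + 2 * k) ∧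
    P.fams.length = cs.length ∧ (∀ F ∈ P.fams, F.1.length = k ∧ F.2.length = k) ∧
    ∀ e ∈ cs, ∃ F ∈ P.fams, IsFam P.steps k (Ep y e) F := by
  induction cs with
  | nil => exact ⟨⟨[], []⟩, by simp, rfl, by simp, by simp⟩
  | cons e cs ih =>
      obtain ⟨P, h1, h2, h3, h4⟩ := ih fun e he => hcs e (List.mem_cons_of_mem _ he)
      obtain ⟨t, F, ht, hF⟩ := fam y k L e (hcs e List.mem_cons_self) P.steps
      refine ⟨⟨P.steps ++ t, F :: P.fams⟩, ?_, ?_, ?_, ?_⟩
      · simp only [List.length_append, List.length_cons, add_mul, one_mul]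
        omega
      · simp only [List.length_cons, h2]
      · intro F' hF'
        rcases List.mem_cons.1 hF' with rfl | hF'
        · obtain ⟨b, g, rfl, -, -⟩ := hF
          exact ⟨by simp, by simp⟩
        · exact h3 F' hF'
      · intro e' he'
        rcases List.mem_cons.1 he' with rfl | he'
        · exact ⟨F, List.mem_cons_self, hF⟩
        · obtain ⟨F', hF', hF''⟩ := h4 e' he'
          exact ⟨F', List.mem_cons_of_mem _ hF', hF''.append t⟩

end Chain

end Pool.Agent.SDF
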