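import Pool.Agent.CJB.NUM

/-!
Sums over primes.
-/

set_option autoImplicit false

namespace Pool.Agent.SDF

/-- The primes in `(a, b]`. -/
def Pm (a b : ℕ) : Finset ℕ := (Finset.Ioc a b).filter Nat.Prime

namespace Cheb

open Finset

theorem mem_Pm {a b p : ℕ} : p ∈ Pm a b ↔ (a < p ∧ p ≤ b) ∧ p.Prime := by
  simp only [Pm, Finset.mem_filter, Finset.mem_Ioc]

theorem theta_eq (n : ℕ) : Chebyshev.theta (n : ℝ) = ∑ p ∈ Pm 0 n, Real.log p := by
  unfold Chebyshev.theta Pm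
  rw [Nat.floor_natCast]

/-- One dyadic block. -/
theorem block (j : ℕ) : ∑ p ∈ Pm (2 ^ j) (2 ^ (j + 1)), Real.log p / p ≤ 4 * Real.log 2 := by
  have h1 : ∑ p ∈ Pm (2 ^ j) (2 ^ (j + 1)), Real.log p / p ≤
      ∑ p ∈ Pm (2 ^ j) (2 ^ (j + 1)), Real.log p / 2 ^ j := by
    apply Finset.sum_le_sum
    intro p hp
    obtain ⟨⟨h1, -⟩, h2⟩ := mem_Pm.1 hp
    have h3 : ((2 : ℝ) ^ j) ≤ p := by exact_mod_cast h1.le
    apply div_le_div_of_nonneg_left (Real.log_nonneg (by exact_mod_cast h2.one_lt.le))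
      (by positivity) h3
  have h2 : ∑ p ∈ Pm (2 ^ j) (2 ^ (j + 1)), Real.log p ≤ Chebyshev.theta ((2 ^ (j + 1) : ℕ) : ℝ) := by
    rw [theta_eq]
    apply Finset.sum_le_sum_of_subset_of_nonneg
    · intro p hp
      obtain ⟨⟨h1, h3⟩, h2⟩ := mem_Pm.1 hp
      exact mem_Pm.2 ⟨⟨h2.pos, h3⟩, h2⟩
    · intro p hp _
      exact Real.log_nonneg (by exact_mod_cast (mem_Pm.1 hp).2.one_lt.le)
  have h3 := Chebyshev.theta_le_log4_mul_x (x := ((2 ^ (j + 1) : ℕ) : ℝ)) (by positivity)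
  have hl4 : Real.log 4 = 2 * Real.log 2 := by
    rw [show (4 : ℝ) = 2 ^ 2 by norm_num, Real.log_pow]
    norm_num
  rw [← Finset.sum_div] at h1
  refine h1.trans ?_
  rw [div_le_iff₀ (by positivity)]
  refine (h2.trans h3).trans (le_of_eq ?_)
  rw [hl4]
  push_cast
  ring

theorem block' (j : ℕ) (hj : 1 ≤ j) : ∑ p ∈ Pm (2 ^ j) (2 ^ (j + 1)), (1 : ℝ) / p ≤ 4 / j := by
  have hl : 0 < Real.log 2 := Real.log_pos (by norm_num)
  have hj' : (0 : ℝ) < j := by exact_mod_cast hj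
  have h1 : ∑ p ∈ Pm (2 ^ j) (2 ^ (j + 1)), (1 : ℝ) / p ≤
      ∑ p ∈ Pm (2 ^ j) (2 ^ (j + 1)), (Real.log p / p) / (j * Real.log 2) := by
    apply Finset.sum_le_sum
    intro p hp
    obtain ⟨⟨h1, -⟩, h2⟩ := mem_Pm.1 hp
    have hp0 : (0 : ℝ) < p := by exact_mod_cast h2.pos
    have h3 : (j : ℝ) * Real.log 2 ≤ Real.log p := by
      rw [← Real.log_pow]
      exact Real.log_le_log (by positivity) (by exact_mod_cast h1.le)
    rw [div_div, div_le_div_iff₀ hp0 (by positivity), one_mul]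
    nlinarith
  refine h1.trans ?_
  rw [← Finset.sum_div, div_le_div_iff₀ (by positivity) hj']
  have := block j
  nlinarith

theorem Pm_union {a b c : ℕ} (hab : a ≤ b) (hbc : b ≤ c) : Pm a c = Pm a b ∪ Pm b c := by
  ext p
  simp only [Finset.mem_union, mem_Pm]
  constructor
  · rintro ⟨⟨h1, h2⟩, h3⟩
    by_cases h : p ≤ b
    · exact Or.inl ⟨⟨h1, h⟩, h3⟩
    · exact Or.inr ⟨⟨by omega, h2⟩, h3⟩
  · rintro (⟨⟨h1, h2⟩, h3⟩ | ⟨⟨h1, h2⟩, h3⟩)
    · exact ⟨⟨h1, by omega⟩, h3⟩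
    · exact ⟨⟨by omega, h2⟩, h3⟩

theorem Pm_disj (a b c : ℕ) : Disjoint (Pm a b) (Pm b c) := by
  rw [Finset.disjoint_left]
  intro p hp hp'
  have := (mem_Pm.1 hp).1.2
  have := (mem_Pm.1 hp').1.1
  omega

theorem sum_Pm {a b c : ℕ} (hab : a ≤ b) (hbc : b ≤ c) (f : ℕ → ℝ) :
    ∑ p ∈ Pm a c, f p = ∑ p ∈ Pm a b, f p + ∑ p ∈ Pm b c, f p := by
  rw [Pm_union hab hbc, Finset.sum_union (Pm_disj a b c)]

/-- `∑ 1/p` over `(2^a, 2^b]`. -/
theorem inv_le (a : ℕ) (ha : 1 ≤ a) (n : ℕ) :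
    ∑ p ∈ Pm (2 ^ a) (2 ^ (a + n)), (1 : ℝ) / p ≤ 4 * n / a := by
  have ha' : (0 : ℝ) < a := by exact_mod_cast ha
  induction n with
  | zero =>
      have : Pm (2 ^ a) (2 ^ (a + 0)) = ∅ := by
        simp [Pm]
      rw [this]
      simp
  | succ n ih =>
      rw [sum_Pm (b := 2 ^ (a + n)) (Nat.pow_le_pow_right (by norm_num) (by omega))
        (Nat.pow_le_pow_right (by norm_num) (by omega))]
      have h1 := block' (a + n) (by omega)
      have h2 : (4 : ℝ) / ((a + n : ℕ) : ℝ) ≤ 4 / a := by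
        apply div_le_div_of_nonneg_left (by norm_num) ha'
        push_cast
        linarith [Nat.cast_nonneg (α := ℝ) n]
      have h3 : (4 : ℝ) * ((n + 1 : ℕ) : ℝ) / a = 4 * n / a + 4 / a := by
        push_cast
        ring
      rw [h3]
      have e : a + (n + 1) = a + n + 1 := by ring
      rw [e]
      linarith

/-- `∑ log p / p` over `(1, 2^m]`. -/
theorem log_le (m : ℕ) : ∑ p ∈ Pm 1 (2 ^ m), Real.log p / p ≤ 4 * Real.log 2 * m := by
  induction m with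
  | zero =>
      have : Pm 1 (2 ^ 0) = ∅ := by simp [Pm]
      rw [this]
      simp
  | succ m ih =>
      rw [sum_Pm (b := 2 ^ m) Nat.one_le_two_pow (Nat.pow_le_pow_right (by norm_num) (by omega))]
      have h1 := block m
      push_cast
      linarith

/-- Lower bound for `∑ 1/p` over `(4^m, 16^m]`. -/
theorem inv_ge : ∃ m₀ : ℕ, 1 ≤ m₀ ∧ ∀ m : ℕ, m₀ ≤ m →
    1 / 17 ≤ ∑ p ∈ Pm (4 ^ m) (16 ^ m), (1 : ℝ) / p := by
  obtain ⟨M₀, -, hM⟩ := CJB.NUM.count
  refine ⟨M₀ + 1, by omega, fun m hm => ?_⟩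
  have hl4 : Real.log 4 = 2 * Real.log 2 := by
    rw [show (4 : ℝ) = 2 ^ 2 by norm_num, Real.log_pow]
    norm_num
  have hl2 : 0 < Real.log 2 := Real.log_pos (by norm_num)
  have hl2' : Real.log 2 < 0.6931471808 := Real.log_two_lt_d9
  -- one block
  have hb : ∀ j, m ≤ j → 1 / (6 * ((j + 1 : ℕ) : ℝ) * Real.log 4) ≤
      ∑ p ∈ Pm (4 ^ j) (4 ^ (j + 1)), (1 : ℝ) / p := by
    intro j hj
    have h4 : M₀ ≤ 4 ^ j := by
      have : j < 4 ^ j := Nat.lt_pow_self (by norm_num)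
      omega
    have h1 := hM (4 ^ j) h4
    have h2 : ((CJB.NUM.Pr (4 ^ j)).card : ℝ) * (1 / (3 * 4 ^ j)) ≤
        ∑ p ∈ Pm (4 ^ j) (4 ^ (j + 1)), (1 : ℝ) / p := by
      rw [← nsmul_eq_mul]
      refine (Finset.card_nsmul_le_sum (CJB.NUM.Pr (4 ^ j)) (fun p => (1 : ℝ) / p) _ ?_).trans ?_
      · intro p hp
        simp only [CJB.NUM.Pr, Finset.mem_filter, Finset.mem_Ioc] at hp
        apply one_div_le_one_div_of_le (by exact_mod_cast hp.2.pos)
        exact_mod_cast hp.1.2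
      · apply Finset.sum_le_sum_of_subset_of_nonneg
        · intro p hp
          simp only [CJB.NUM.Pr, Finset.mem_filter, Finset.mem_Ioc] at hp
          rw [mem_Pm]
          refine ⟨⟨hp.1.1, ?_⟩, hp.2⟩
          rw [pow_succ]
          omega
        · intro p _ _
          positivity
    refine le_trans ?_ h2
    have hlog : Real.log (3 * ((4 ^ j : ℕ) : ℝ)) ≤ ((j + 1 : ℕ) : ℝ) * Real.log 4 := by
      rw [← Real.log_pow]
      apply Real.log_le_log (by positivity)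
      push_cast
      rw [pow_succ]
      nlinarith [pow_pos (show (0 : ℝ) < 4 by norm_num) j]
    have hpos : 0 < Real.log (3 * ((4 ^ j : ℕ) : ℝ)) := by
      apply Real.log_pos
      push_cast
      nlinarith [one_le_pow₀ (show (1 : ℝ) ≤ 4 by norm_num) (n := j)]
    have h3 : ((4 ^ j : ℕ) : ℝ) / 2 ≤ ((CJB.NUM.Pr (4 ^ j)).card : ℝ) *
        (((j + 1 : ℕ) : ℝ) * Real.log 4) :=
      h1.trans (mul_le_mul_of_nonneg_left hlog (Nat.cast_nonneg _))
    have hq : (0 : ℝ) < ((j + 1 : ℕ) : ℝ) * Real.log 4 := by rw [hl4]; positivity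
    push_cast at h3 hq ⊢
    rw [div_le_iff₀ (by positivity)]
    have h4p : (0 : ℝ) < 4 ^ j := by positivity
    have e : ((CJB.NUM.Pr (4 ^ j)).card : ℝ) * (1 / (3 * 4 ^ j)) * (6 * ((j : ℝ) + 1) * Real.log 4)
        = 2 * (((CJB.NUM.Pr (4 ^ j)).card : ℝ) * (((j : ℝ) + 1) * Real.log 4)) / 4 ^ j := by
      field_simp
      ring
    rw [e, le_div_iff₀ h4p]
    linarith
  -- the sum
  have hs : ∀ n : ℕ, n ≤ m → (n : ℝ) * (1 / (6 * ((2 * m : ℕ) : ℝ) * Real.log 4)) ≤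
      ∑ p ∈ Pm (4 ^ m) (4 ^ (m + n)), (1 : ℝ) / p := by
    intro n
    induction n with
    | zero =>
        intro _
        rw [Nat.cast_zero, zero_mul]
        exact Finset.sum_nonneg fun p _ => by positivity
    | succ n ih =>
        intro hn
        rw [sum_Pm (b := 4 ^ (m + n)) (Nat.pow_le_pow_right (by norm_num) (by omega))
          (Nat.pow_le_pow_right (by norm_num) (by omega))]
        have h1 := hb (m + n) (by omega)
        have h2 := ih (by omega)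
        have h3 : 1 / (6 * ((2 * m : ℕ) : ℝ) * Real.log 4) ≤
            1 / (6 * ((m + n + 1 : ℕ) : ℝ) * Real.log 4) := by
          apply one_div_le_one_div_of_le (by rw [hl4]; positivity)
          apply mul_le_mul_of_nonneg_right _ (by rw [hl4]; positivity)
          apply mul_le_mul_of_nonneg_left _ (by norm_num)
          exact_mod_cast (by omega : m + n + 1 ≤ 2 * m)
        have e : m + (n + 1) = m + n + 1 := by ring
        rw [e]
        push_cast at h1 h2 h3 ⊢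
        linarith
  have h := hs m le_rfl
  have e : (16 : ℕ) ^ m = 4 ^ (m + m) := by
    rw [← two_mul, pow_mul]
    norm_num
  rw [e]
  refine le_trans ?_ h
  have hm0 : (0 : ℝ) < m := by exact_mod_cast (by omega : 0 < m)
  push_cast
  rw [mul_one_div, le_div_iff₀ (by rw [hl4]; positivity), hl4]
  nlinarith

end Cheb

end Pool.Agent.SDF
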