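import Pool.Agent.SDF.Smooth

/-!
Counting exceptional degrees.
-/

set_option autoImplicit false

namespace Pool.Agent.SDF

open Classical in
/-- The degrees up to `N` which are not reached with the parameters `y = k = 2^a`. -/
noncomputable def Bd (N a : ℕ) : Finset ℕ :=
  (Finset.Icc 1 N).filter fun d =>
    ¬ ur (Ep (2 ^ a) fun _ => Nat.log 2 N) d ≤ (2 ^ a) ^ 2

namespace Count

open Finset Cheb Smooth

theorem dvd_count (N m : ℕ) (hm : 1 ≤ m) :
    (((Icc 1 N).filter (m ∣ ·)).card : ℝ) ≤ N / m := by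
  have h : (Icc 1 N).filter (m ∣ ·) = (Ioc 0 N).filter (m ∣ ·) := by
    ext d
    simp only [Finset.mem_filter, Finset.mem_Icc, Finset.mem_Ioc]
    constructor <;> rintro ⟨⟨h1, h2⟩, h3⟩ <;> exact ⟨⟨by omega, h2⟩, h3⟩
  rw [h, Nat.Ioc_filter_dvd_card_eq_div]
  exact Nat.cast_div_le

/-- The number of degrees which are not reached. -/
theorem bad_le (N a n : ℕ) (ha : 1 ≤ a) (hN : N < 2 ^ (2 * a + n)) :
    ((Bd N a).card : ℝ) ≤ N * (2 * n / a + (4 * n / a) ^ 2) := by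
  classical
  have ha' : (0 : ℝ) < a := by exact_mod_cast ha
  set P := Pm (2 ^ (2 * a)) (2 ^ (2 * a + n)) with hP
  set Q := Pm (2 ^ a) (2 ^ (a + n)) with hQ
  have hsub : Bd N a ⊆ (P.biUnion fun p => (Icc 1 N).filter (p ∣ ·)) ∪
      ((Q ×ˢ Q).biUnion fun b => (Icc 1 N).filter (b.1 * b.2 ∣ ·)) := by
    intro d hd
    simp only [Bd, Finset.mem_filter, Finset.mem_Icc, not_le] at hd
    obtain ⟨⟨hd1, hdN⟩, hu⟩ := hd
    set M := Ep (2 ^ a) fun _ => Nat.log 2 N with hM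
    have hud : ur M d ∣ d := Dvd.intro_left _ (Sep.gcd_mul_ur M d)
    have hpr : ∀ p, p.Prime → p ∣ ur M d → 2 ^ a < p := fun p hp hpu =>
      Sep.prime_gt hd1 hdN le_rfl hp hpu
    have hu1 : ur M d ≠ 1 := by
      have : 1 ≤ (2 ^ a) ^ 2 := Nat.one_le_pow _ _ (by positivity)
      omega
    obtain ⟨p, hp, v, hv⟩ := Nat.exists_prime_and_dvd hu1
    have hp1 := hpr p hp ⟨v, hv⟩
    rw [Finset.mem_union]
    by_cases hv1 : v = 1
    · left
      rw [hv1, mul_one] at hv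
      rw [Finset.mem_biUnion]
      have hpd : p ∣ d := hv ▸ hud
      refine ⟨p, mem_Pm.2 ⟨⟨?_, ?_⟩, hp⟩, Finset.mem_filter.2 ⟨Finset.mem_Icc.2 ⟨hd1, hdN⟩, hpd⟩⟩
      · rw [← hv, mul_comm, pow_mul]
        exact hu
      · exact ((Nat.le_of_dvd hd1 hpd).trans hdN).trans hN.le
    · right
      obtain ⟨q, hq, w, hw⟩ := Nat.exists_prime_and_dvd hv1
      have hq1 := hpr q hq ⟨p * w, by rw [hv, hw]; ring⟩
      have hpq : p * q ∣ d := (show p * q ∣ ur M d from ⟨w, by rw [hv, hw]; ring⟩).trans hud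
      have hle : p * q < 2 ^ (2 * a + n) :=
        lt_of_le_of_lt ((Nat.le_of_dvd hd1 hpq).trans hdN) hN
      have e : 2 ^ (2 * a + n) = 2 ^ a * 2 ^ (a + n) := by rw [← pow_add]; congr 1; ring
      rw [Finset.mem_biUnion]
      refine ⟨(p, q), Finset.mem_product.2 ⟨mem_Pm.2 ⟨⟨hp1, ?_⟩, hp⟩, mem_Pm.2 ⟨⟨hq1, ?_⟩, hq⟩⟩,
        Finset.mem_filter.2 ⟨Finset.mem_Icc.2 ⟨hd1, hdN⟩, hpq⟩⟩
      · by_contra hcon
        push Not at hcon
        have : 2 ^ a * 2 ^ (a + n) ≤ p * q := by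
          rw [mul_comm p q]
          exact Nat.mul_le_mul hq1.le hcon.le
        omega
      · by_contra hcon
        push Not at hcon
        have : 2 ^ a * 2 ^ (a + n) ≤ p * q := Nat.mul_le_mul hp1.le hcon.le
        omega
  have h1 : ((Bd N a).card : ℝ) ≤ ∑ p ∈ P, (N : ℝ) / p +
      ∑ b ∈ Q ×ˢ Q, (N : ℝ) / ((b.1 : ℝ) * b.2) := by
    have h2 : (Bd N a).card ≤ ∑ p ∈ P, ((Icc 1 N).filter (p ∣ ·)).card +
        ∑ b ∈ Q ×ˢ Q, ((Icc 1 N).filter (b.1 * b.2 ∣ ·)).card :=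
      (Finset.card_le_card hsub).trans ((Finset.card_union_le _ _).trans
        (add_le_add Finset.card_biUnion_le Finset.card_biUnion_le))
    have h3 : ((Bd N a).card : ℝ) ≤ ∑ p ∈ P, (((Icc 1 N).filter (p ∣ ·)).card : ℝ) +
        ∑ b ∈ Q ×ˢ Q, (((Icc 1 N).filter (b.1 * b.2 ∣ ·)).card : ℝ) := by exact_mod_cast h2
    refine h3.trans (add_le_add ?_ ?_)
    · apply Finset.sum_le_sum
      intro p hp
      exact dvd_count N p (mem_Pm.1 hp).2.pos
    · apply Finset.sum_le_sum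
      intro b hb
      rw [Finset.mem_product] at hb
      have := dvd_count N (b.1 * b.2)
        (Nat.mul_pos (mem_Pm.1 hb.1).2.pos (mem_Pm.1 hb.2).2.pos)
      push_cast at this
      exact this
  have h2 : ∑ p ∈ P, (N : ℝ) / p ≤ N * (2 * n / a) := by
    have : ∑ p ∈ P, (N : ℝ) / p = N * ∑ p ∈ P, (1 : ℝ) / p := by
      rw [Finset.mul_sum]
      exact Finset.sum_congr rfl fun p _ => by ring
    rw [this]
    apply mul_le_mul_of_nonneg_left _ (Nat.cast_nonneg N)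
    refine (inv_le (2 * a) (by omega) n).trans (le_of_eq ?_)
    push_cast
    field_simp
    ring
  have h3 : ∑ b ∈ Q ×ˢ Q, (N : ℝ) / ((b.1 : ℝ) * b.2) ≤ N * (4 * n / a) ^ 2 := by
    have : ∑ b ∈ Q ×ˢ Q, (N : ℝ) / ((b.1 : ℝ) * b.2) =
        N * ((∑ p ∈ Q, (1 : ℝ) / p) * ∑ p ∈ Q, (1 : ℝ) / p) := by
      rw [Finset.sum_mul_sum, ← Finset.sum_product', Finset.mul_sum]
      apply Finset.sum_congr rfl
      intro b _
      rw [div_mul_div_comm, one_mul, mul_one_div]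
    rw [this, sq]
    have h4 := inv_le a ha n
    have h5 : 0 ≤ ∑ p ∈ Q, (1 : ℝ) / p := Finset.sum_nonneg fun p _ => by positivity
    apply mul_le_mul_of_nonneg_left _ (Nat.cast_nonneg N)
    exact mul_le_mul h4 h4 h5 (h5.trans h4)
  rw [mul_add]
  exact h1.trans (add_le_add h2 h3)

end Count

end Pool.Agent.SDF
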