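import Mathlib

/-!
# Factoring over F_2 by few modular compositions (problem MP_54838b_lc): definitions
-/

set_option autoImplicit false

namespace Pool.Agent.SDF

open Polynomial

/-- A non-adaptive program: a list of modular compositions and a list of families of tests; a
family `(A, B)` consists of a list of giant steps `A` and a list of baby steps `B` (positions). -/
structure Prog : Type where
  steps : List (ℕ × ℕ)
  fams : List (List ℕ × List ℕ)

/-- The number of compositions plus the total length of the lists of giant and baby steps. -/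
def Prog.size (P : Prog) : ℕ :=
  P.steps.length + (P.fams.map fun F => F.1.length + F.2.length).sum

/-- The values computed modulo `f`: start with `v_0 = x`, `v_1 = x^2 mod f`; the step `(i, j)`
appends the modular composition `v_i (v_j) mod f` (`x` for positions out of range). -/
noncomputable def run (f : (ZMod 2)[X]) (steps : List (ℕ × ℕ)) : List (ZMod 2)[X] :=
  steps.foldl (fun v s => v ++ [(v.getD s.1 X).comp (v.getD s.2 X) % f]) [X, X ^ 2 % f]

/-- The family `(A, B)` separates `g` and `h`: for the first giant step `a` in `A` such that `g` or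
`h` divides one of the differences `v_a - v_b`, `b` in `B`, there is such a difference which is
divisible by exactly one of `g`, `h`. -/
def Separates (v : List (ZMod 2)[X]) (g h : (ZMod 2)[X]) (A B : List ℕ) : Prop :=
  ∃ A₁ a A₂, A = A₁ ++ a :: A₂ ∧
    (∀ a' ∈ A₁, ∀ b ∈ B, ¬ g ∣ v.getD a' X - v.getD b X ∧ ¬ h ∣ v.getD a' X - v.getD b X) ∧
    ∃ b ∈ B, ¬ (g ∣ v.getD a X - v.getD b X ↔ h ∣ v.getD a X - v.getD b X)

/-- The program, run modulo `f`, separates the factors `g` and `h` of `f`. -/
def Prog.Sep (P : Prog) (f g h : (ZMod 2)[X]) : Prop :=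
  ∃ F ∈ P.fams, Separates (run f P.steps) g h F.1 F.2

/-- The exponents `e` with `v = x ^ (2 ^ e)`: an addition chain. -/
def exps (steps : List (ℕ × ℕ)) : List ℕ :=
  steps.foldl (fun e s => e ++ [e.getD s.1 0 + e.getD s.2 0]) [0, 1]

/-- `Separates` in terms of degrees and exponents. -/
def NSep (e : List ℕ) (d d' : ℕ) (A B : List ℕ) : Prop :=
  ∃ A₁ a A₂, A = A₁ ++ a :: A₂ ∧
    (∀ a' ∈ A₁, ∀ b ∈ B, ¬ (d : ℤ) ∣ (e.getD a' 0 : ℤ) - e.getD b 0 ∧
      ¬ (d' : ℤ) ∣ (e.getD a' 0 : ℤ) - e.getD b 0) ∧
    ∃ b ∈ B, ¬ ((d : ℤ) ∣ (e.getD a 0 : ℤ) - e.getD b 0 ↔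
      (d' : ℤ) ∣ (e.getD a 0 : ℤ) - e.getD b 0)

/-- The product of the prime powers `q ^ e q`, `q ≤ y`. -/
def Ep (y : ℕ) (e : ℕ → ℕ) : ℕ := ∏ q ∈ (Finset.range (y + 1)).filter Nat.Prime, q ^ e q

/-- The part of `d` which is not explained by `M`. -/
def ur (M d : ℕ) : ℕ := d / Nat.gcd d M

end Pool.Agent.SDF
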