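import Pool.Agent.SDF.Num

/-!
The final statement.
-/

set_option autoImplicit false

namespace Pool.Agent.SDF

open Polynomial

theorem final :
    ∃ β : ℝ → ℝ, (∀ δ, 0 < β δ) ∧ (∀ δ, 1 - 200 * (1 / 2 - δ) ≤ β δ) ∧
      ∀ δ, 0 < δ → δ < 1 / 2 → Num.St δ (β δ) := by
  refine ⟨fun δ => max (Smooth.bet ⌈16 / δ⌉₊) (1 - 200 * (1 / 2 - δ)),
    fun δ => lt_max_of_lt_left (Smooth.bet_pos _), fun δ => le_max_right _ _,
    fun δ hδ hδ2 => ?_⟩
  show Num.St δ (max (Smooth.bet ⌈16 / δ⌉₊) (1 - 200 * (1 / 2 - δ)))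
  rcases le_total (Smooth.bet ⌈16 / δ⌉₊) (1 - 200 * (1 / 2 - δ)) with h | h
  · rw [max_eq_right h]
    have hb := Smooth.bet_pos ⌈16 / δ⌉₊
    have := Num.part2 (1 / 2 - δ) (by linarith) (by linarith)
    rwa [sub_sub_cancel] at this
  · rw [max_eq_left h]
    exact Num.part1 δ hδ hδ2

end Pool.Agent.SDF
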