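import Pool.Agent.SDF.Sep
import Pool.Agent.SDF.Cheb

/-!
Isolating moduli.
-/

set_option autoImplicit false

namespace Pool.Agent.SDF

namespace IsolAux

open Finset Cheb

theorem theta_large : ∃ X₀ : ℕ, ∀ X : ℕ, X₀ ≤ X →
    (X : ℝ) / 2 * Real.log 2 < Chebyshev.theta (X : ℝ) := by
  obtain ⟨x₀, hx1, hx⟩ := CJB.NUM.ev_log
  refine ⟨⌈x₀⌉₊ + 1, fun X hX => ?_⟩
  have hX1 : x₀ ≤ X := (Nat.le_ceil _).trans (Nat.cast_le.2 (by omega : ⌈x₀⌉₊ ≤ X))
  have hXR : (1 : ℝ) ≤ X := by exact_mod_cast (by omega : 1 ≤ X)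
  have h1 := Chebyshev.theta_ge X
  have h2 := hx X hX1
  have h3 := hx (X + 1) (by linarith)
  have h4 : Real.sqrt X * Real.sqrt X = X := Real.mul_self_sqrt (by linarith)
  have h5 : 2 * Real.sqrt X * Real.log X ≤ 2 / 100 * X := by
    nlinarith [mul_le_mul_of_nonneg_left h2 (Real.sqrt_nonneg (X : ℝ))]
  have h6 : Real.sqrt (X + 1) ≤ X + 1 := by
    rw [Real.sqrt_le_left (by linarith)]
    nlinarith
  have hl : 0.69 < Real.log 2 := by linarith [Real.log_two_gt_d9]
  nlinarith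

/-- Isolating moduli exist. -/
theorem isol : ∃ L₀ : ℕ, ∀ N : ℕ, L₀ ≤ Nat.log 2 N → Sep.Isol N (2 * (Nat.log 2 N + 1) ^ 2) := by
  obtain ⟨X₀, hX₀⟩ := theta_large
  refine ⟨X₀ + 1, fun N hN s hs hsN p hp hpN => ?_⟩
  set L := Nat.log 2 N with hL
  set X := 2 * (L + 1) ^ 2 with hX
  by_contra hcon
  push Not at hcon
  -- the product of the differences
  set S := s.primeFactors.erase p with hS
  set D := ∏ q ∈ S, ((q : ℤ) - p).natAbs with hD
  have hdiff : ∀ q ∈ S, ((q : ℤ) - p).natAbs ≠ 0 := by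
    intro q hq h
    rw [Int.natAbs_eq_zero] at h
    exact (Finset.mem_erase.1 hq).1 (by omega)
  have hD0 : D ≠ 0 := by
    rw [hD, Finset.prod_ne_zero_iff]
    exact hdiff
  have hdvd : ∏ m ∈ Pm 0 X, m ∣ D := by
    apply Finset.prod_primes_dvd
    · intro m hm
      exact (mem_Pm.1 hm).2.prime
    · intro m hm
      obtain ⟨⟨-, hmX⟩, hmp⟩ := mem_Pm.1 hm
      obtain ⟨q, hq, hqs, hqp, hqm⟩ := hcon m hmp.one_lt.le hmX
      have hqS : q ∈ S := Finset.mem_erase.2 ⟨hqp, Nat.mem_primeFactors.2 ⟨hq, hqs, by omega⟩⟩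
      refine dvd_trans ?_ (Finset.dvd_prod_of_mem _ hqS)
      rw [← Int.natCast_dvd]
      have h1 : (q : ℤ) ≡ p [ZMOD m] := by
        rw [Int.natCast_modEq_iff]
        exact hqm
      exact h1.symm.dvd
  have hcard : S.card ≤ L := by
    have h1 : 2 ^ S.card ≤ ∏ q ∈ S, q := by
      rw [← Finset.prod_const]
      apply Finset.prod_le_prod
      · intro _ _
        norm_num
      · intro q hq
        exact (Nat.prime_of_mem_primeFactors (Finset.mem_of_mem_erase hq)).two_le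
    have h2 : ∏ q ∈ S, q ∣ s := by
      apply Finset.prod_primes_dvd
      · intro q hq
        exact (Nat.prime_of_mem_primeFactors (Finset.mem_of_mem_erase hq)).prime
      · intro q hq
        exact Nat.dvd_of_mem_primeFactors (Finset.mem_of_mem_erase hq)
    apply Nat.le_log_of_pow_le (by norm_num)
    exact h1.trans ((Nat.le_of_dvd hs h2).trans hsN)
  have hNlt : N < 2 ^ (L + 1) := Nat.lt_pow_succ_log_self (by norm_num) N
  have hDle : D ≤ (2 ^ (L + 1)) ^ L := by
    calc D ≤ ∏ q ∈ S, 2 ^ (L + 1) := by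
          apply Finset.prod_le_prod
          · intro _ _
            exact Nat.zero_le _
          · intro q hq
            have hq1 : q ≤ N :=
              (Nat.le_of_dvd hs (Nat.dvd_of_mem_primeFactors (Finset.mem_of_mem_erase hq))).trans hsN
            omega
      _ = (2 ^ (L + 1)) ^ S.card := by rw [Finset.prod_const]
      _ ≤ (2 ^ (L + 1)) ^ L := Nat.pow_le_pow_right (by positivity) hcard
  have hprod : ∏ m ∈ Pm 0 X, m ≤ (2 ^ (L + 1)) ^ L :=
    (Nat.le_of_dvd (Nat.pos_of_ne_zero hD0) hdvd).trans hDle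
  -- take logarithms
  have h1 : Chebyshev.theta (X : ℝ) ≤ (L : ℝ) * ((L + 1 : ℕ) : ℝ) * Real.log 2 := by
    rw [theta_eq, ← Real.log_prod (fun m hm => by
      have := (mem_Pm.1 hm).2.pos
      positivity)]
    calc Real.log (∏ m ∈ Pm 0 X, (m : ℝ)) ≤ Real.log (((2 : ℝ) ^ (L + 1)) ^ L) := by
          apply Real.log_le_log
          · apply Finset.prod_pos
            intro m hm
            exact_mod_cast (mem_Pm.1 hm).2.pos
          · have h7 : ((∏ m ∈ Pm 0 X, m : ℕ) : ℝ) ≤ (((2 ^ (L + 1)) ^ L : ℕ) : ℝ) :=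
              Nat.cast_le.2 hprod
            push_cast at h7
            exact h7
      _ = _ := by
          rw [Real.log_pow, Real.log_pow]
          ring
  have h2 := hX₀ X (by
    have : L + 1 ≤ (L + 1) ^ 2 := Nat.le_self_pow (by norm_num) _
    omega)
  have hl : 0 < Real.log 2 := Real.log_pos (by norm_num)
  have h3 : (X : ℝ) / 2 = ((L : ℝ) + 1) ^ 2 := by
    rw [hX]
    push_cast
    ring
  rw [h3] at h2
  push_cast at h1
  have h4 : (0 : ℝ) ≤ L := Nat.cast_nonneg L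
  nlinarith

end IsolAux

end Pool.Agent.SDF
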