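import Pool.Agent.SDF.Count
import Pool.Agent.SDF.Isol

/-!
Choice of the parameters.
-/

set_option autoImplicit false

namespace Pool.Agent.SDF

namespace Num

open Smooth Count

theorem ev_pow (c : ℝ) (hc : 0 < c) : ∃ L₀ : ℕ, ∀ L : ℕ, L₀ ≤ L →
    36 * ((L : ℝ) + 1) ^ 7 ≤ (2 : ℝ) ^ (c * L) := by
  have hl2 : 0 < Real.log 2 := Real.log_pos (by norm_num)
  set t := c * Real.log 2 / 8 with ht
  have ht0 : 0 < t := by positivity
  refine ⟨⌈4608 / t ^ 8⌉₊ + 1, fun L hL => ?_⟩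
  have hL1 : (1 : ℝ) ≤ L := by exact_mod_cast (by omega : 1 ≤ L)
  have hL2 : 4608 / t ^ 8 ≤ L :=
    (Nat.le_ceil _).trans (Nat.cast_le.2 (by omega : ⌈4608 / t ^ 8⌉₊ ≤ L))
  rw [div_le_iff₀ (by positivity)] at hL2
  have e : (2 : ℝ) ^ (c * L) = Real.exp (t * L) ^ 8 := by
    rw [Real.rpow_def_of_pos (by norm_num), ← Real.exp_nat_mul]
    congr 1
    rw [ht]
    push_cast
    ring
  have h1 : t * L ≤ Real.exp (t * L) := by
    have := Real.add_one_le_exp (t * L)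
    linarith
  have h2 : (t * L) ^ 8 ≤ Real.exp (t * L) ^ 8 := pow_le_pow_left₀ (by positivity) h1 8
  rw [e]
  refine le_trans ?_ h2
  have h3 : (t * L) ^ 8 = (L * t ^ 8) * (L : ℝ) ^ 7 := by ring
  have h4 : ((L : ℝ) + 1) ^ 7 ≤ (2 * L) ^ 7 := pow_le_pow_left₀ (by positivity) (by linarith) 7
  have h5 : (2 * (L : ℝ)) ^ 7 = 128 * L ^ 7 := by ring
  rw [h3]
  calc 36 * ((L : ℝ) + 1) ^ 7 ≤ 36 * (128 * L ^ 7) := by
        rw [← h5]
        exact mul_le_mul_of_nonneg_left h4 (by norm_num)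
    _ = 4608 * (L : ℝ) ^ 7 := by ring
    _ ≤ _ := mul_le_mul_of_nonneg_right hL2 (by positivity)

theorem size_ok {N a : ℕ} {c δ : ℝ} (hN : 1 ≤ N) (hδ : 0 ≤ δ) (hδ1 : δ ≤ 1) (hc : 0 ≤ c)
    (ha : (a : ℝ) ≤ (δ - c) * Nat.log 2 N)
    (hp : 36 * ((Nat.log 2 N : ℝ) + 1) ^ 7 ≤ (2 : ℝ) ^ (c * Nat.log 2 N)) (s : ℕ)
    (h1 : s ≤ (2 * (Nat.log 2 N + 1) ^ 2 + 1) * ((2 * (Nat.log 2 N + 1) ^ 2 + 1) *
      (Nat.log 2 N + 1)) * (2 ^ a * (Nat.log 2 N * (2 * a)) + 4 * 2 ^ a)) :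
    (s : ℝ) ≤ (N : ℝ) ^ δ := by
  set L := Nat.log 2 N with hL
  have hL0 : (0 : ℝ) ≤ L := Nat.cast_nonneg L
  have haL : (a : ℝ) ≤ L := by
    refine ha.trans ?_
    nlinarith
  have haL' : a ≤ L := by exact_mod_cast haL
  have hpow : (2 : ℝ) ^ L ≤ N := by exact_mod_cast Nat.pow_log_le_self 2 (by omega)
  have key : (2 : ℝ) ^ a * (36 * ((L : ℝ) + 1) ^ 7) ≤ (N : ℝ) ^ δ := by
    calc (2 : ℝ) ^ a * (36 * ((L : ℝ) + 1) ^ 7) ≤
          (2 : ℝ) ^ ((δ - c) * L) * (2 : ℝ) ^ (c * L) := by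
          apply mul_le_mul _ hp (by positivity) (by positivity)
          rw [← Real.rpow_natCast]
          exact Real.rpow_le_rpow_of_exponent_le (by norm_num) ha
      _ = (2 : ℝ) ^ ((L : ℝ) * δ) := by
          rw [← Real.rpow_add (by norm_num)]
          congr 1
          ring
      _ = ((2 : ℝ) ^ L) ^ δ := by
          rw [Real.rpow_mul (by norm_num), Real.rpow_natCast]
      _ ≤ (N : ℝ) ^ δ := Real.rpow_le_rpow (by positivity) hpow hδ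
  refine le_trans ?_ key
  have h2 : s ≤ 2 ^ a * (36 * (L + 1) ^ 7) := by
    refine h1.trans ?_
    have e1 : 2 * (L + 1) ^ 2 + 1 ≤ 3 * (L + 1) ^ 2 := by nlinarith
    have e2 : 2 ^ a * (L * (2 * a)) + 4 * 2 ^ a ≤ 2 ^ a * (4 * (L + 1) ^ 2) := by
      have e3 : L * (2 * a) + 4 ≤ 4 * (L + 1) ^ 2 := by nlinarith
      calc 2 ^ a * (L * (2 * a)) + 4 * 2 ^ a = 2 ^ a * (L * (2 * a) + 4) := by ring
        _ ≤ _ := Nat.mul_le_mul_left _ e3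
    calc _ ≤ (3 * (L + 1) ^ 2) * ((3 * (L + 1) ^ 2) * (L + 1)) * (2 ^ a * (4 * (L + 1) ^ 2)) :=
          Nat.mul_le_mul (Nat.mul_le_mul e1 (Nat.mul_le_mul_right _ e1)) e2
      _ = _ := by ring
  exact_mod_cast h2

/-- The good degrees. -/
noncomputable def Gd (N a : ℕ) : Finset ℕ :=
  (Finset.Icc 1 N).filter fun d => ur (Ep (2 ^ a) fun _ => Nat.log 2 N) d ≤ (2 ^ a) ^ 2

open Polynomial in
/-- The program for the parameters `y = k = 2^a`. -/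
theorem prog (N a : ℕ) (c δ : ℝ) (hN : 1 ≤ N) (hδ : 0 ≤ δ) (hδ1 : δ ≤ 1) (hc : 0 ≤ c)
    (ha : (a : ℝ) ≤ (δ - c) * Nat.log 2 N)
    (hp : 36 * ((Nat.log 2 N : ℝ) + 1) ^ 7 ≤ (2 : ℝ) ^ (c * Nat.log 2 N))
    (hX : Sep.Isol N (2 * (Nat.log 2 N + 1) ^ 2)) : ∃ P : Prog, (P.size : ℝ) ≤ (N : ℝ) ^ δ ∧
      ∀ f g h : (ZMod 2)[X], Irreducible g → Irreducible h → g ∣ f → h ∣ f →
        g.natDegree ∈ Gd N a → h.natDegree ≤ N → g.natDegree ≠ h.natDegree → P.Sep f g h := by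
  have haL : a ≤ Nat.log 2 N := by
    have : (a : ℝ) ≤ Nat.log 2 N := by
      refine ha.trans ?_
      nlinarith [Nat.cast_nonneg (α := ℝ) (Nat.log 2 N)]
    exact_mod_cast this
  have hyN : 2 ^ a ≤ N := (Nat.pow_le_pow_right (by norm_num) haL).trans
    (Nat.pow_log_le_self 2 (by omega))
  obtain ⟨P, h1, h2⟩ := exists_prog N (2 * (Nat.log 2 N + 1) ^ 2) (2 ^ a) (2 ^ a) hX
    (by nlinarith [Nat.zero_le (Nat.log 2 N)]) Nat.one_le_two_pow hyN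
  rw [Nat.log_pow (by norm_num)] at h1
  refine ⟨P, size_ok hN hδ hδ1 hc ha hp _ h1, ?_⟩
  intro f g h hg hh hgf hhf hgG hhN hne
  rw [Gd, Finset.mem_filter, Finset.mem_Icc] at hgG
  exact h2 f g h hg hh hgf hhf hgG.1.2 hgG.2 hhN hne

open Polynomial in
/-- The statement for one exponent and one density. -/
def St (δ β : ℝ) : Prop := ∃ N₀ : ℕ, ∀ N ≥ N₀, ∃ (P : Prog) (G : Finset ℕ),
  (P.size : ℝ) ≤ (N : ℝ) ^ δ ∧ G ⊆ Finset.Icc 1 N ∧ β * N ≤ G.card ∧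
  ∀ f g h : (ZMod 2)[X], Irreducible g → Irreducible h → g ∣ f → h ∣ f →
    g.natDegree ∈ G → h.natDegree ≤ N → g.natDegree ≠ h.natDegree → P.Sep f g h

theorem log_ge {N L₀ : ℕ} (hN : 2 ^ L₀ ≤ N) : L₀ ≤ Nat.log 2 N :=
  Nat.le_log_of_pow_le (by norm_num) hN

theorem part1 (δ : ℝ) (hδ : 0 < δ) (hδ2 : δ < 1 / 2) : St δ (bet ⌈16 / δ⌉₊) := by
  obtain ⟨m₀, hm₀, hge⟩ := card_ge
  obtain ⟨L₁, hL₁⟩ := ev_pow (δ / 2) (by positivity)
  obtain ⟨L₂, hL₂⟩ := IsolAux.isol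
  set L₃ := ⌈16 * ((m₀ : ℝ) + 1) / δ⌉₊ with hL₃
  refine ⟨2 ^ (L₁ + L₂ + L₃ + 1), fun N hN => ?_⟩
  have hLN := log_ge hN
  have hN1 : 1 ≤ N := Nat.one_le_two_pow.trans hN
  set L := Nat.log 2 N with hL
  have hLR : (1 : ℝ) ≤ L := by exact_mod_cast (by omega : 1 ≤ L)
  have h2 : 16 * ((m₀ : ℝ) + 1) ≤ δ * L := by
    have h3 : 16 * ((m₀ : ℝ) + 1) / δ ≤ L :=
      (Nat.le_ceil _).trans (Nat.cast_le.2 (by omega : L₃ ≤ L))
    rw [div_le_iff₀ hδ] at h3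
    linarith
  have hm0R : (0 : ℝ) ≤ m₀ := Nat.cast_nonneg _
  set m := ⌊δ * L / 8⌋₊ with hm
  have hmle : (m : ℝ) ≤ δ * L / 8 := Nat.floor_le (by positivity)
  have hmge : δ * L / 8 - 1 < m := by
    have := Nat.lt_floor_add_one (δ * L / 8)
    rw [← hm] at this
    linarith
  have hm16 : δ * L / 16 ≤ m := by linarith
  have hmm₀ : m₀ ≤ m := by
    have : (m₀ : ℝ) ≤ m := by linarith
    exact_mod_cast this
  obtain ⟨P, hP1, hP2⟩ := prog N (4 * m) (δ / 2) δ hN1 hδ.le (by linarith) (by positivity)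
    (by push_cast; rw [← hL]; linarith) (hL₁ L (by omega)) (hL₂ N (by omega))
  refine ⟨P, Gd N (4 * m), hP1, Finset.filter_subset _ _, ?_, hP2⟩
  have e16 : (2 : ℕ) ^ (4 * m) = 16 ^ m := by rw [pow_mul]; norm_num
  -- smooth numbers
  have hsm : bet ⌈16 / δ⌉₊ * N ≤ ((Sm (16 ^ m) N).card : ℝ) := by
    apply hge m hmm₀ ⌈16 / δ⌉₊ N
    have h4 : N < 2 ^ (L + 1) := Nat.lt_pow_succ_log_self (by norm_num) N
    have h5 : L + 1 ≤ 4 * m + 2 * (m * ⌈16 / δ⌉₊) := by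
      have h6 : (L : ℝ) ≤ m * ⌈16 / δ⌉₊ := by
        have h7 : 16 / δ ≤ ⌈16 / δ⌉₊ := Nat.le_ceil _
        calc (L : ℝ) = (δ * L / 16) * (16 / δ) := by field_simp
          _ ≤ m * ⌈16 / δ⌉₊ := mul_le_mul hm16 h7 (by positivity) (Nat.cast_nonneg _)
      have h7 : L ≤ m * ⌈16 / δ⌉₊ := by exact_mod_cast h6
      have h8 : 1 ≤ L := by omega
      omega
    calc N ≤ 2 ^ (L + 1) := h4.le
      _ ≤ 2 ^ (4 * m + 2 * (m * ⌈16 / δ⌉₊)) := Nat.pow_le_pow_right (by norm_num) h5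
      _ = 16 ^ m * 4 ^ (m * ⌈16 / δ⌉₊) := by
        rw [pow_add, pow_mul, pow_mul]
        norm_num
  refine hsm.trans ?_
  have hsub : Sm (16 ^ m) N ⊆ Gd N (4 * m) := by
    intro d hd
    obtain ⟨⟨h1, h3⟩, h4⟩ := mem_Sm.1 hd
    rw [Gd, Finset.mem_filter, Finset.mem_Icc]
    refine ⟨⟨h1, h3⟩, ?_⟩
    have hdv : d ∣ Ep (2 ^ (4 * m)) fun _ => Nat.log 2 N := by
      apply Sep.dvd_Ep h1
      intro p hp hpd
      rw [e16]
      exact ⟨h4 p hp hpd, Sep.val_le h1 h3 hp⟩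
    have : ur (Ep (2 ^ (4 * m)) fun _ => Nat.log 2 N) d = 1 := by
      unfold ur
      rw [Nat.gcd_eq_left hdv, Nat.div_self h1]
    rw [this]
    exact Nat.one_le_pow _ _ (by positivity)
  exact_mod_cast Finset.card_le_card hsub

theorem part2 (ε : ℝ) (hε : 0 < ε) (hε2 : ε ≤ 1 / 24) : St (1 / 2 - ε) (1 - 200 * ε) := by
  obtain ⟨L₁, hL₁⟩ := ev_pow ε hε
  obtain ⟨L₂, hL₂⟩ := IsolAux.isol
  set L₃ := ⌈9 / ε⌉₊ with hL₃
  refine ⟨2 ^ (L₁ + L₂ + L₃ + 12), fun N hN => ?_⟩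
  have hLN := log_ge hN
  have hN1 : 1 ≤ N := Nat.one_le_two_pow.trans hN
  set L := Nat.log 2 N with hL
  have hNR : (0 : ℝ) < N := by exact_mod_cast hN1
  have hLR : (12 : ℝ) ≤ L := by exact_mod_cast (by omega : 12 ≤ L)
  have h2 : 9 ≤ ε * L := by
    have h3 : 9 / ε ≤ L := (Nat.le_ceil _).trans (Nat.cast_le.2 (by omega : L₃ ≤ L))
    rw [div_le_iff₀ hε] at h3
    linarith
  set a := ⌊(1 / 2 - 2 * ε) * L⌋₊ with ha
  have hale : (a : ℝ) ≤ (1 / 2 - 2 * ε) * L := Nat.floor_le (by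
    apply mul_nonneg <;> linarith)
  have hage : (1 / 2 - 2 * ε) * L - 1 < a := by
    have := Nat.lt_floor_add_one ((1 / 2 - 2 * ε) * L)
    rw [← ha] at this
    linarith
  have ha3 : (L : ℝ) / 3 ≤ a := by nlinarith
  have ha0 : (0 : ℝ) < a := by linarith
  have ha1 : 1 ≤ a := by exact_mod_cast ha0
  have h2a : 2 * a ≤ L := by
    have : (2 : ℝ) * a ≤ L := by nlinarith
    exact_mod_cast this
  obtain ⟨n, hn⟩ : ∃ n, 2 * a + n = L + 1 := ⟨L + 1 - 2 * a, by omega⟩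
  have hnR : (2 : ℝ) * a + n = L + 1 := by exact_mod_cast hn
  obtain ⟨P, hP1, hP2⟩ := prog N a ε (1 / 2 - ε) hN1 (by linarith) (by linarith) hε.le
    (by rw [← hL]; linarith) (hL₁ L (by omega)) (hL₂ N (by omega))
  refine ⟨P, Gd N a, hP1, Finset.filter_subset _ _, ?_, hP2⟩
  have hlt : N < 2 ^ (2 * a + n) := by
    rw [hn]
    exact Nat.lt_pow_succ_log_self (by norm_num) N
  have hb := bad_le N a n ha1 hlt
  have hna : (n : ℝ) / a ≤ 13 * ε := by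
    rw [div_le_iff₀ ha0]
    have h3 : (n : ℝ) ≤ 4 * ε * L + 3 := by linarith
    have h4 : 4 * ε * L + 3 ≤ 13 * ε * (L / 3) := by linarith
    have h5 : 13 * ε * (L / 3) ≤ 13 * ε * a := mul_le_mul_of_nonneg_left ha3 (by positivity)
    linarith
  have hna0 : 0 ≤ (n : ℝ) / a := by positivity
  have hb2 : ((Bd N a).card : ℝ) ≤ 139 * ε * N := by
    refine hb.trans ?_
    rw [mul_comm]
    apply mul_le_mul_of_nonneg_right _ hNR.le
    have e1 : 2 * (n : ℝ) / a = 2 * (n / a) := by ring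
    have e2 : 4 * (n : ℝ) / a = 4 * (n / a) := by ring
    rw [e1, e2]
    have e3 : ((n : ℝ) / a) ^ 2 ≤ (13 * ε) ^ 2 := pow_le_pow_left₀ hna0 hna 2
    nlinarith
  have hcard : (Gd N a).card + (Bd N a).card = N := by
    have h1 := Finset.card_filter_add_card_filter_not (s := Finset.Icc 1 N)
      (fun d => ur (Ep (2 ^ a) fun _ => Nat.log 2 N) d ≤ (2 ^ a) ^ 2)
    rw [Nat.card_Icc, Nat.add_sub_cancel] at h1
    unfold Gd Bd
    convert h1 using 2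
  have hcardR : ((Gd N a).card : ℝ) + (Bd N a).card = N := by exact_mod_cast hcard
  nlinarith

end Num

end Pool.Agent.SDF
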