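import Pool.Agent.SDF.Defs

/-!
From polynomials to exponents.
-/

set_option autoImplicit false

namespace Pool.Agent.SDF

open Polynomial

namespace Poly

theorem run_snoc (f : (ZMod 2)[X]) (l : List (ℕ × ℕ)) (s : ℕ × ℕ) :
    run f (l ++ [s]) = run f l ++ [((run f l).getD s.1 X).comp ((run f l).getD s.2 X) % f] := by
  unfold run
  rw [List.foldl_append]
  rfl

theorem exps_snoc (l : List (ℕ × ℕ)) (s : ℕ × ℕ) :
    exps (l ++ [s]) = exps l ++ [(exps l).getD s.1 0 + (exps l).getD s.2 0] := by
  unfold exps
  rw [List.foldl_append]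
  rfl

theorem length_exps (l : List (ℕ × ℕ)) : (exps l).length = l.length + 2 := by
  induction l using List.reverseRecOn with
  | nil => rfl
  | append_singleton l s ih => rw [exps_snoc, List.length_append, ih]; simp

theorem length_run (f : (ZMod 2)[X]) (l : List (ℕ × ℕ)) : (run f l).length = l.length + 2 := by
  induction l using List.reverseRecOn with
  | nil => rfl
  | append_singleton l s ih => rw [run_snoc, List.length_append, ih]; simp

theorem getD_snoc {α : Type*} (l : List α) (a c : α) (i : ℕ) :
    (l ++ [a]).getD i c = if i = l.length then a else l.getD i c := by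
  by_cases h : i < l.length
  · rw [if_neg (by omega), List.getD_append _ _ _ _ h]
  · by_cases h' : i = l.length
    · rw [if_pos h', h', List.getD_append_right _ _ _ _ le_rfl]
      simp
    · rw [if_neg h']
      rw [List.getD_eq_default, List.getD_eq_default]
      · omega
      · rw [List.length_append, List.length_singleton]; omega

theorem mod_congr (f a : (ZMod 2)[X]) : f ∣ a - a % f := by
  refine ⟨a / f, ?_⟩
  have := EuclideanDomain.div_add_mod a f
  linear_combination -this

/-- `f (x^(2^b)) = f ^ (2^b)` over `F_2`. -/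
theorem comp_X_pow (f : (ZMod 2)[X]) (b : ℕ) : f.comp (X ^ 2 ^ b) = f ^ 2 ^ b := by
  have h := ZMod.expand_card (p := 2) f
  induction b with
  | zero => simp
  | succ b ih =>
      have h1 : f.comp (X ^ 2 ^ (b + 1)) = (f.comp (X ^ 2 ^ b)).comp (X ^ 2) := by
        rw [Polynomial.comp_assoc]
        congr 1
        rw [X_pow_comp, ← pow_mul, pow_succ']
      rw [h1, ih, pow_comp, ← Polynomial.expand_eq_comp_X_pow, h, ← pow_mul, pow_succ']

theorem comp_congr {f a b c d : (ZMod 2)[X]} (h1 : f ∣ a - c) (h2 : f ∣ b - d)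
    (h3 : f ∣ f.comp d) : f ∣ a.comp b - c.comp d := by
  -- `b = d` modulo `f`, so `f (b) = f (d) = 0` modulo `f`
  have key : ∀ p : (ZMod 2)[X], f ∣ p.comp b - p.comp d := by
    intro p
    have := Polynomial.sub_dvd_eval_sub b d (p.map C)
    rw [Polynomial.eval_map, Polynomial.eval_map] at this
    exact h2.trans this
  obtain ⟨q, hq⟩ := h1
  have h4 : a.comp b - c.comp d = (c.comp b - c.comp d) + (f * q).comp b := by
    rw [← hq, sub_comp]; ring
  rw [h4]
  refine dvd_add (key c) ?_
  rw [mul_comp]
  apply Dvd.dvd.mul_right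
  have := key f
  have h5 : f.comp b = (f.comp b - f.comp d) + f.comp d := by ring
  rw [h5]
  exact dvd_add this h3

/-- The values of the program are the conjugates of `x`. -/
theorem run_congr (f : (ZMod 2)[X]) (l : List (ℕ × ℕ)) : ∀ i,
    f ∣ (run f l).getD i X - X ^ 2 ^ (exps l).getD i 0 := by
  induction l using List.reverseRecOn with
  | nil =>
      intro i
      rcases i with _ | _ | i
      · simp [run, exps]
      · have := mod_congr f (X ^ 2)
        simp only [run, exps, List.foldl_nil, List.getD_cons_succ, List.getD_cons_zero, pow_one]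
        rw [← neg_sub, dvd_neg]
        exact this
      · simp [run, exps]
  | append_singleton l s ih =>
      intro i
      rw [run_snoc, exps_snoc, getD_snoc, getD_snoc, length_run, length_exps]
      split_ifs with h
      · have h1 := comp_congr (ih s.1) (ih s.2) (by rw [comp_X_pow]; exact dvd_pow_self _ (by positivity))
        rw [X_pow_comp, ← pow_mul, ← pow_add] at h1
        have h2 := mod_congr f (((run f l).getD s.1 X).comp ((run f l).getD s.2 X))
        have h3 := dvd_sub h1 h2
        rw [add_comm ((exps l).getD s.1 0)]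
        convert h3 using 1
        ring
      · exact ih i

/-- Divisibility of differences of conjugates. -/
theorem dvd_iff {g : (ZMod 2)[X]} (hg : Irreducible g) (a b : ℕ) :
    g ∣ X ^ 2 ^ a - X ^ 2 ^ b ↔ (g.natDegree : ℤ) ∣ (a : ℤ) - b := by
  have hc : Nat.card (ZMod 2) = 2 := Nat.card_zmod 2
  have key : ∀ m : ℕ, g ∣ X ^ 2 ^ m - X ↔ g.natDegree ∣ m := by
    intro m
    have h := hg.natDegree_dvd_iff_dvd_X_pow_card_pow_sub_X (n := m)
    rw [hc] at h
    exact h.symm
  have main : ∀ a b : ℕ, b ≤ a → (g ∣ X ^ 2 ^ a - X ^ 2 ^ b ↔ (g.natDegree : ℤ) ∣ (a : ℤ) - b) := by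
    intro a b hab
    obtain ⟨m, rfl⟩ := Nat.exists_eq_add_of_le hab
    have e : (X : (ZMod 2)[X]) ^ 2 ^ (b + m) - X ^ 2 ^ b = (X ^ 2 ^ m - X) ^ 2 ^ b := by
      rw [sub_pow_char_pow, ← pow_mul, ← pow_add, add_comm b m]
    have e2 : ((b + m : ℕ) : ℤ) - b = m := by push_cast; ring
    rw [e, e2, Int.natCast_dvd_natCast, ← key]
    constructor
    · exact hg.prime.dvd_of_dvd_pow
    · intro h
      exact dvd_pow h (by positivity)
  rcases le_total b a with h | h
  · exact main a b h
  · rw [← neg_sub, dvd_neg, ← neg_sub (b : ℤ), dvd_neg]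
    exact main b a h

/-- Divisibility of differences of the values of the program. -/
theorem run_dvd_iff {f g : (ZMod 2)[X]} (hg : Irreducible g) (hf : g ∣ f) (l : List (ℕ × ℕ))
    (i j : ℕ) : g ∣ (run f l).getD i X - (run f l).getD j X ↔
      (g.natDegree : ℤ) ∣ ((exps l).getD i 0 : ℤ) - (exps l).getD j 0 := by
  rw [← dvd_iff hg]
  have h1 := hf.trans (run_congr f l i)
  have h2 := hf.trans (run_congr f l j)
  have h3 : (run f l).getD i X - (run f l).getD j X = (X ^ 2 ^ (exps l).getD i 0 - X ^ 2 ^ (exps l).getD j 0)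
      + (((run f l).getD i X - X ^ 2 ^ (exps l).getD i 0) -
        ((run f l).getD j X - X ^ 2 ^ (exps l).getD j 0)) := by ring
  rw [h3]
  constructor
  · intro h
    exact (dvd_add_left (dvd_sub h1 h2)).mp h
  · intro h
    exact dvd_add h (dvd_sub h1 h2)

theorem separates {f g h : (ZMod 2)[X]} (hg : Irreducible g) (hh : Irreducible h) (hgf : g ∣ f)
    (hhf : h ∣ f) (l : List (ℕ × ℕ)) (A B : List ℕ)
    (H : NSep (exps l) g.natDegree h.natDegree A B) : Separates (run f l) g h A B := by
  obtain ⟨A₁, a, A₂, hL, h1, b, hb, h2⟩ := H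
  refine ⟨A₁, a, A₂, hL, fun a' ha' b hb => ?_, b, hb, ?_⟩
  · rw [run_dvd_iff hg hgf, run_dvd_iff hh hhf]
    exact h1 a' ha' b hb
  · rw [run_dvd_iff hg hgf, run_dvd_iff hh hhf]
    exact h2

end Poly

end Pool.Agent.SDF
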