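import Pool.Agent.SDF.Chain

/-!
Which pairs of degrees are separated.
-/

set_option autoImplicit false

namespace Pool.Agent.SDF

namespace Sep

theorem Ep_ne_zero (y : ℕ) (e : ℕ → ℕ) : Ep y e ≠ 0 := by
  unfold Ep
  rw [Finset.prod_ne_zero_iff]
  intro q hq
  exact pow_ne_zero _ (Finset.mem_filter.1 hq).2.ne_zero

theorem fac_Ep (y : ℕ) (e : ℕ → ℕ) {p : ℕ} (hp : p.Prime) :
    (Ep y e).factorization p = if p ≤ y then e p else 0 := by
  unfold Ep
  rw [Nat.factorization_prod (fun q hq => pow_ne_zero _ (Finset.mem_filter.1 hq).2.ne_zero),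
    Finsupp.finsetSum_apply]
  have h1 : ∀ q ∈ (Finset.range (y + 1)).filter Nat.Prime,
      (q ^ e q).factorization p = if q = p then e p else 0 := by
    intro q hq
    rw [(Finset.mem_filter.1 hq).2.factorization_pow, Finsupp.single_apply]
    split_ifs with h
    · rw [h]
    · rfl
  rw [Finset.sum_congr rfl h1, Finset.sum_ite_eq' _ p]
  simp only [Finset.mem_filter, Finset.mem_range, hp, and_true]
  congr 1
  exact propext ⟨fun h => by omega, fun h => by omega⟩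

theorem val_le {N d p : ℕ} (hd : 1 ≤ d) (hdN : d ≤ N) (hp : p.Prime) :
    d.factorization p ≤ Nat.log 2 N := by
  apply Nat.le_log_of_pow_le (by norm_num)
  calc 2 ^ d.factorization p ≤ p ^ d.factorization p := Nat.pow_le_pow_left hp.two_le _
    _ ≤ d := Nat.le_of_dvd hd (Nat.ordProj_dvd d p)
    _ ≤ N := hdN

/-- Divisibility of `Ep` by valuations. -/
theorem dvd_Ep {y d : ℕ} {e : ℕ → ℕ} (hd : 1 ≤ d)
    (h : ∀ p, p.Prime → p ∣ d → p ≤ y ∧ d.factorization p ≤ e p) : d ∣ Ep y e := by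
  rw [← Nat.factorization_prime_le_iff_dvd (by omega) (Ep_ne_zero y e)]
  intro p hp
  by_cases hpd : p ∣ d
  · obtain ⟨h1, h2⟩ := h p hp hpd
    rw [fac_Ep y e hp, if_pos h1]
    exact h2
  · rw [Nat.factorization_eq_zero_of_not_dvd hpd]
    exact Nat.zero_le _

theorem le_of_dvd_Ep {y p : ℕ} {e : ℕ → ℕ} (hp : p.Prime) (h : p ∣ Ep y e) : p ≤ y := by
  by_contra hcon
  have h1 := (hp.dvd_iff_one_le_factorization (Ep_ne_zero y e)).1 h
  rw [fac_Ep y e hp, if_neg hcon] at h1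
  omega

theorem Ep_dvd_Ep {y L : ℕ} {e : ℕ → ℕ} (he : ∀ q, e q ≤ L) : Ep y e ∣ Ep y fun _ => L := by
  unfold Ep
  exact Finset.prod_dvd_prod_of_dvd _ _ fun q _ => pow_dvd_pow q (he q)

theorem ur_pos {M d : ℕ} (hd : 1 ≤ d) : 1 ≤ ur M d :=
  Nat.div_pos (Nat.le_of_dvd hd (Nat.gcd_dvd_left d M)) (Nat.gcd_pos_of_pos_left M hd)

theorem gcd_mul_ur (M d : ℕ) : Nat.gcd d M * ur M d = d :=
  Nat.mul_div_cancel' (Nat.gcd_dvd_left d M)

theorem dvd_mul_iff {M d : ℕ} (hd : 1 ≤ d) (r : ℕ) : d ∣ M * r ↔ ur M d ∣ r := by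
  have hg : 0 < Nat.gcd d M := Nat.gcd_pos_of_pos_left M hd
  obtain ⟨m, hm⟩ := Nat.gcd_dvd_right d M
  have hco : Nat.Coprime (ur M d) (M / Nat.gcd d M) := Nat.coprime_div_gcd_div_gcd hg
  have hm' : M / Nat.gcd d M = m := Nat.div_eq_of_eq_mul_right hg hm
  rw [hm'] at hco
  constructor
  · intro h
    have h1 : Nat.gcd d M * ur M d ∣ Nat.gcd d M * (m * r) := by
      rw [← mul_assoc, ← hm, gcd_mul_ur]
      exact h
    exact hco.dvd_of_dvd_mul_left (Nat.dvd_of_mul_dvd_mul_left hg h1)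
  · rintro ⟨q, rfl⟩
    refine ⟨m * q, ?_⟩
    calc M * (ur M d * q) = (Nat.gcd d M * m) * (ur M d * q) := by rw [← hm]
      _ = (Nat.gcd d M * ur M d) * (m * q) := by ring
      _ = d * (m * q) := by rw [gcd_mul_ur]

theorem prime_gt {N d y L p : ℕ} (hd : 1 ≤ d) (hdN : d ≤ N) (hL : Nat.log 2 N ≤ L)
    (hp : p.Prime) (h : p ∣ ur (Ep y fun _ => L) d) : y < p := by
  by_contra hcon
  push Not at hcon
  set M := Ep y fun _ => L with hM
  have h1 : p ^ d.factorization p ∣ Nat.gcd d M := by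
    apply Nat.dvd_gcd (Nat.ordProj_dvd d p)
    rw [hp.pow_dvd_iff_le_factorization (Ep_ne_zero _ _), fac_Ep _ _ hp, if_pos hcon]
    exact (val_le hd hdN hp).trans hL
  have h2 : p ^ (d.factorization p + 1) ∣ d := by
    rw [pow_succ]
    calc p ^ d.factorization p * p ∣ Nat.gcd d M * ur M d := mul_dvd_mul h1 h
      _ = d := gcd_mul_ur M d
  exact Nat.pow_succ_factorization_not_dvd (by omega) hp h2

theorem range_split {β : Type*} (f : ℕ → β) {n t₀ : ℕ} (h : t₀ < n) :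
    ∃ R, (List.range n).map f = (List.range t₀).map f ++ f t₀ :: R := by
  obtain ⟨m, rfl⟩ : ∃ m, n = t₀ + (m + 1) := ⟨n - t₀ - 1, by omega⟩
  rw [List.range_add, List.map_append, List.range_succ_eq_map]
  refine ⟨List.map f (List.map (fun x => t₀ + x) (List.map Nat.succ (List.range m))), ?_⟩
  simp only [List.map_cons, add_zero]

/-- A family separates degrees with different values of `ur`, one of which is at most `k^2`. -/
theorem nsep {k M d d' : ℕ} (l : List (ℕ × ℕ)) (F : List ℕ × List ℕ) (hF : Chain.IsFam l k M F)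
    (hd : 1 ≤ d) (hd' : 1 ≤ d') (hk : 1 ≤ k) (hur : ur M d ≤ k ^ 2) (hlt : ur M d < ur M d') :
    NSep (exps l) d d' F.1 F.2 ∧ NSep (exps l) d' d F.1 F.2 := by
  obtain ⟨b, g, rfl, hb, hg⟩ := hF
  have hdiff : ∀ j < k, ∀ i < k, ∀ c : ℕ, 1 ≤ c →
      ((c : ℤ) ∣ ((exps l).getD (g (j + 1)) 0 : ℤ) - (exps l).getD (b i) 0 ↔
        ur M c ∣ k * (j + 1) - i) := by
    intro j hj i hi c hc
    rw [(hg (j + 1) (by omega)).2, (hb i (by omega)).2]
    have hle : i ≤ k * (j + 1) := by nlinarith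
    have : ((M * (k * (j + 1)) : ℕ) : ℤ) - ((M * i : ℕ) : ℤ) =
        ((M * (k * (j + 1) - i) : ℕ) : ℤ) := by
      push_cast [Nat.cast_sub hle]
      ring
    rw [this, Int.natCast_dvd_natCast, dvd_mul_iff hc]
  set u := ur M d with hu
  set u' := ur M d' with hu'
  have hu1 : 1 ≤ u := ur_pos hd
  obtain ⟨j₀, i₀, hj₀, hi₀, hr⟩ : ∃ j₀ i₀, j₀ < k ∧ i₀ < k ∧ u + i₀ = k * (j₀ + 1) := by
    refine ⟨(u - 1) / k, k - 1 - (u - 1) % k, ?_, by omega, ?_⟩
    · rw [Nat.div_lt_iff_lt_mul (by omega)]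
      rw [sq] at hur
      omega
    · have h1 := Nat.div_add_mod (u - 1) k
      have h2 := Nat.mod_lt (u - 1) (by omega : k > 0)
      rw [mul_add, mul_one]
      omega
  obtain ⟨R, hR⟩ := range_split (fun j => g (j + 1)) hj₀
  have hearly : ∀ j < j₀, ∀ i < k, ∀ c : ℕ, 1 ≤ c → u ≤ ur M c →
      ¬ (c : ℤ) ∣ ((exps l).getD (g (j + 1)) 0 : ℤ) - (exps l).getD (b i) 0 := by
    intro j hj i hi c hc huc h
    rw [hdiff j (by omega) i hi c hc] at h
    have h1 : 1 ≤ k * (j + 1) - i := by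
      have : k * (j + 1) = k * j + k := by ring
      omega
    have h2 : k * (j + 1) - i < u := by
      have h3 : k * (j + 1) ≤ k * j₀ := Nat.mul_le_mul_left k (by omega)
      have h4 : k * (j₀ + 1) = k * j₀ + k := by ring
      omega
    have := Nat.le_of_dvd h1 h
    omega
  have hsep : ¬ ((d : ℤ) ∣ ((exps l).getD (g (j₀ + 1)) 0 : ℤ) - (exps l).getD (b i₀) 0 ↔
      (d' : ℤ) ∣ ((exps l).getD (g (j₀ + 1)) 0 : ℤ) - (exps l).getD (b i₀) 0) := by
    rw [hdiff j₀ hj₀ i₀ hi₀ d hd, hdiff j₀ hj₀ i₀ hi₀ d' hd']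
    have : k * (j₀ + 1) - i₀ = u := by omega
    rw [this]
    intro hiff
    have := Nat.le_of_dvd hu1 (hiff.1 dvd_rfl)
    omega
  have hbm : b i₀ ∈ (List.range k).map b := List.mem_map.mpr ⟨i₀, List.mem_range.mpr hi₀, rfl⟩
  refine ⟨⟨_, _, R, hR, ?_, b i₀, hbm, hsep⟩, ⟨_, _, R, hR, ?_, b i₀, hbm, fun h => hsep h.symm⟩⟩
  · intro a ha c hc
    obtain ⟨j, hj, rfl⟩ := List.mem_map.mp ha
    obtain ⟨i, hi, rfl⟩ := List.mem_map.mp hc
    rw [List.mem_range] at hj hi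
    exact ⟨hearly j hj i hi d hd le_rfl, hearly j hj i hi d' hd' hlt.le⟩
  · intro a ha c hc
    obtain ⟨j, hj, rfl⟩ := List.mem_map.mp ha
    obtain ⟨i, hi, rfl⟩ := List.mem_map.mp hc
    rw [List.mem_range] at hj hi
    exact ⟨hearly j hj i hi d' hd' hlt.le, hearly j hj i hi d hd le_rfl⟩

/-- The exponent functions. -/
def ef (L m ρ v : ℕ) (q : ℕ) : ℕ := if q % m = ρ then min v L else L

/-- The list of exponent functions. -/
def efs (L X : ℕ) : List (ℕ → ℕ) :=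
  ((List.range (X + 1)) ×ˢ (List.range (X + 1)) ×ˢ (List.range (L + 1))).map
    fun t => ef L t.1 t.2.1 t.2.2

theorem ef_le (L m ρ v q : ℕ) : ef L m ρ v q ≤ L := by
  unfold ef
  split_ifs
  · exact min_le_right _ _
  · exact le_rfl

theorem efs_le {L X : ℕ} : ∀ e ∈ efs L X, ∀ q, e q ≤ L := by
  intro e he q
  obtain ⟨t, -, rfl⟩ := List.mem_map.1 he
  exact ef_le _ _ _ _ _

theorem length_efs (L X : ℕ) : (efs L X).length = (X + 1) * ((X + 1) * (L + 1)) := by
  unfold efs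
  rw [List.length_map, List.length_product, List.length_product, List.length_range,
    List.length_range]

theorem mem_efs {L X m ρ v : ℕ} (hm : m ≤ X) (hρ : ρ ≤ X) (hv : v ≤ L) :
    ef L m ρ v ∈ efs L X := by
  refine List.mem_map.2 ⟨(m, ρ, v), ?_, rfl⟩
  rw [List.mem_product, List.mem_product, List.mem_range, List.mem_range, List.mem_range]
  exact ⟨by omega, by omega, by omega⟩

/-- For every `s` and `p` some modulus `m ≤ X` isolates `p` among the primes dividing `s`. -/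
def Isol (N X : ℕ) : Prop := ∀ s, 1 ≤ s → s ≤ N → ∀ p, p.Prime → p ≤ N →
  ∃ m, 1 ≤ m ∧ m ≤ X ∧ ∀ q, q.Prime → q ∣ s → q ≠ p → q % m ≠ p % m

/-- The case of equal rough parts. -/
theorem smooth_case {N X y L d d' : ℕ} (hL : L = Nat.log 2 N) (hX : Isol N X) (hd : 1 ≤ d)
    (hdN : d ≤ N) (hd' : 1 ≤ d') (hyN : y ≤ N)
    (hu : ur (Ep y fun _ => L) d = ur (Ep y fun _ => L) d') {p : ℕ} (hp : p.Prime)
    (hlt : (Nat.gcd d (Ep y fun _ => L)).factorization p <
      (Nat.gcd d' (Ep y fun _ => L)).factorization p) :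
    ∃ e ∈ efs L X, ur (Ep y e) d = ur (Ep y fun _ => L) d ∧ ur (Ep y e) d < ur (Ep y e) d' := by
  set M := Ep y fun _ => L with hM
  set s := Nat.gcd d M with hs
  set s' := Nat.gcd d' M with hs'
  have hs1 : 1 ≤ s := Nat.gcd_pos_of_pos_left M hd
  have hs1' : 1 ≤ s' := Nat.gcd_pos_of_pos_left M hd'
  have hsN : s ≤ N := (Nat.le_of_dvd hd (Nat.gcd_dvd_left d M)).trans hdN
  have hps' : p ∣ s' := by
    rw [hp.dvd_iff_one_le_factorization (by omega)]
    omega
  have hpy : p ≤ y := le_of_dvd_Ep hp (hps'.trans (Nat.gcd_dvd_right d' M))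
  obtain ⟨m, hm1, hmX, hm⟩ := hX s hs1 hsN p hp (hpy.trans hyN)
  set v := s.factorization p with hv
  have hvL : v ≤ L := by rw [hL]; exact val_le hs1 hsN hp
  have hmod : p % m < m := Nat.mod_lt p (by omega)
  set e := ef L m (p % m) v with he
  have heL : ∀ q, e q ≤ L := ef_le _ _ _ _
  have hep : e p = v := by
    rw [he, ef, if_pos rfl, min_eq_left hvL]
  have hE : Ep y e ∣ M := Ep_dvd_Ep heL
  -- `s` divides `E`
  have hsE : s ∣ Ep y e := by
    apply dvd_Ep hs1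
    intro q hq hqs
    refine ⟨le_of_dvd_Ep hq (hqs.trans (Nat.gcd_dvd_right d M)), ?_⟩
    by_cases hqp : q = p
    · rw [hqp, hep]
    · rw [he, ef, if_neg (hm q hq hqs hqp), hL]
      exact val_le hs1 hsN hq
  have hgcd : Nat.gcd d (Ep y e) = s := by
    apply Nat.dvd_antisymm
    · exact Nat.dvd_gcd (Nat.gcd_dvd_left _ _) ((Nat.gcd_dvd_right _ _).trans hE)
    · exact Nat.dvd_gcd (Nat.gcd_dvd_left d M) hsE
  have hur : ur (Ep y e) d = ur M d := by
    unfold ur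
    rw [hgcd, hs]
  -- `s'` does not divide `E`
  have hsE' : ¬ s' ∣ Ep y e := by
    intro h
    have h1 := (Nat.factorization_le_iff_dvd (by omega) (Ep_ne_zero y e)).2 h p
    rw [fac_Ep y e hp, if_pos hpy, hep] at h1
    omega
  have hgcd' : Nat.gcd d' (Ep y e) < s' := by
    have h1 : Nat.gcd d' (Ep y e) ∣ s' :=
      Nat.dvd_gcd (Nat.gcd_dvd_left _ _) ((Nat.gcd_dvd_right _ _).trans hE)
    apply lt_of_le_of_ne (Nat.le_of_dvd hs1' h1)
    intro h
    exact hsE' (h ▸ Nat.gcd_dvd_right _ _)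
  refine ⟨e, mem_efs hmX (by omega) hvL, hur, ?_⟩
  rw [hur, hu]
  by_contra hcon
  push Not at hcon
  have h1 := gcd_mul_ur (Ep y e) d'
  have h2 := gcd_mul_ur M d'
  have h3 : 1 ≤ ur M d' := ur_pos hd'
  have h4 : Nat.gcd d' (Ep y e) * ur (Ep y e) d' ≤ Nat.gcd d' (Ep y e) * ur M d' :=
    Nat.mul_le_mul_left _ hcon
  have h5 : Nat.gcd d' (Ep y e) * ur M d' < s' * ur M d' := Nat.mul_lt_mul_of_pos_right hgcd' h3
  rw [← hs'] at h2
  omega

/-- All pairs of different degrees, one of which is good, are separated by a family. -/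
theorem exists_fam {N X y L k d d' : ℕ} (hL : L = Nat.log 2 N) (hX : Isol N X) (hX1 : 1 ≤ X)
    (hd : 1 ≤ d) (hdN : d ≤ N) (hd' : 1 ≤ d') (hdN' : d' ≤ N) (hyN : y ≤ N) (hne : d ≠ d')
    (hgood : ur (Ep y fun _ => L) d ≤ k ^ 2) :
    ∃ e ∈ efs L X, (ur (Ep y e) d ≤ k ^ 2 ∧ ur (Ep y e) d < ur (Ep y e) d') ∨
      (ur (Ep y e) d' ≤ k ^ 2 ∧ ur (Ep y e) d' < ur (Ep y e) d) := by
  set M := Ep y fun _ => L with hM
  have hmem : (fun _ => L : ℕ → ℕ) ∈ efs L X := by
    have h1 : ef L 1 0 L = fun _ => L := by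
      funext q
      unfold ef
      split_ifs <;> simp
    rw [← h1]
    exact mem_efs hX1 (Nat.zero_le _) le_rfl
  rcases lt_trichotomy (ur M d) (ur M d') with h | h | h
  · exact ⟨_, hmem, Or.inl ⟨hgood, h⟩⟩
  · -- equal rough parts
    have hs1 : 1 ≤ Nat.gcd d M := Nat.gcd_pos_of_pos_left M hd
    have hs1' : 1 ≤ Nat.gcd d' M := Nat.gcd_pos_of_pos_left M hd'
    have hss : Nat.gcd d M ≠ Nat.gcd d' M := by
      intro heq
      apply hne
      rw [← gcd_mul_ur M d, ← gcd_mul_ur M d', heq, h]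
    obtain ⟨p, hp⟩ : ∃ p, (Nat.gcd d M).factorization p ≠ (Nat.gcd d' M).factorization p := by
      by_contra hcon
      push Not at hcon
      exact hss (Nat.eq_of_factorization_eq (by omega) (by omega) hcon)
    have hpp : p.Prime := by
      by_contra hnp
      rw [Nat.factorization_eq_zero_of_not_prime _ hnp,
        Nat.factorization_eq_zero_of_not_prime _ hnp] at hp
      exact hp rfl
    rcases lt_or_gt_of_ne hp with hlt | hlt
    · obtain ⟨e, he, h1, h2⟩ := smooth_case hL hX hd hdN hd' hyN h hpp hlt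
      exact ⟨e, he, Or.inl ⟨by rw [h1]; exact hgood, h2⟩⟩
    · obtain ⟨e, he, h1, h2⟩ := smooth_case hL hX hd' hdN' hd hyN h.symm hpp hlt
      exact ⟨e, he, Or.inr ⟨by rw [h1, ← h]; exact hgood, h2⟩⟩
  · exact ⟨_, hmem, Or.inr ⟨h.le.trans hgood, h⟩⟩

end Sep

open Polynomial in
/-- The program. -/
theorem exists_prog (N X y k : ℕ) (hX : Sep.Isol N X) (hX1 : 1 ≤ X) (hk : 1 ≤ k) (hyN : y ≤ N) :
    ∃ P : Prog,
      P.size ≤ (X + 1) * ((X + 1) * (Nat.log 2 N + 1)) *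
        (y * (Nat.log 2 N * (2 * Nat.log 2 y)) + 4 * k) ∧
      ∀ f g h : (ZMod 2)[X], Irreducible g → Irreducible h → g ∣ f → h ∣ f →
        g.natDegree ≤ N → ur (Ep y fun _ => Nat.log 2 N) g.natDegree ≤ k ^ 2 →
        h.natDegree ≤ N → g.natDegree ≠ h.natDegree → P.Sep f g h := by
  obtain ⟨P, h1, h2, h3, h4⟩ := Chain.build y k (Nat.log 2 N) (Sep.efs (Nat.log 2 N) X) Sep.efs_le
  rw [Sep.length_efs] at h1 h2
  refine ⟨P, ?_, ?_⟩
  · have h5 : (P.fams.map fun F => F.1.length + F.2.length).sum = P.fams.length * (2 * k) := by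
      have h6 : (P.fams.map fun F => F.1.length + F.2.length) = P.fams.map fun _ => 2 * k := by
        apply List.map_congr_left
        intro F hF
        rw [(h3 F hF).1, (h3 F hF).2]
        ring
      rw [h6, List.map_const', List.sum_replicate, smul_eq_mul]
    unfold Prog.size
    rw [h5, h2]
    refine (Nat.add_le_add_right h1 _).trans (le_of_eq ?_)
    ring
  · intro f g h hg hh hgf hhf hgN hgood hhN hne
    obtain ⟨e, he, hor⟩ := Sep.exists_fam rfl hX hX1 hg.natDegree_pos hgN hh.natDegree_pos hhN hyN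
      hne hgood
    obtain ⟨F, hF, hFam⟩ := h4 e he
    refine ⟨F, hF, ?_⟩
    apply Poly.separates hg hh hgf hhf
    rcases hor with ⟨a1, a2⟩ | ⟨a1, a2⟩
    · exact (Sep.nsep P.steps F hFam hg.natDegree_pos hh.natDegree_pos hk a1 a2).1
    · exact (Sep.nsep P.steps F hFam hh.natDegree_pos hg.natDegree_pos hk a1 a2).2

end Pool.Agent.SDF
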