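import Pool.Agent.SDF.Cheb
import Pool.Agent.SDF.Sep

/-!
Counting smooth numbers.
-/

set_option autoImplicit false

namespace Pool.Agent.SDF

open Classical in
/-- The `y`-smooth numbers up to `x`. -/
noncomputable def Sm (y x : ℕ) : Finset ℕ :=
  (Finset.Icc 1 x).filter fun d => ∀ p, p.Prime → p ∣ d → p ≤ y

namespace Smooth

open Finset Cheb

theorem mem_Sm {y x d : ℕ} : d ∈ Sm y x ↔ (1 ≤ d ∧ d ≤ x) ∧ ∀ p, p.Prime → p ∣ d → p ≤ y := by
  simp only [Sm, Finset.mem_filter, Finset.mem_Icc]

/-- The sum of the valuations. -/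
theorem sum_val (N p : ℕ) (hp : p.Prime) :
    ∑ d ∈ Icc 1 N, ((d.factorization p : ℕ) : ℝ) ≤ 2 * N / p := by
  have h1 : ∑ d ∈ Icc 1 N, d.factorization p = (N.factorial).factorization p := by
    induction N with
    | zero => simp
    | succ N ih =>
        rw [Finset.sum_Icc_succ_top (by omega), ih, Nat.factorial_succ,
          Nat.factorization_mul (by omega) (Nat.factorial_ne_zero N)]
        simp only [Finsupp.coe_add, Pi.add_apply]
        ring
  have h2 : (p - 1) * (N.factorial).factorization p ≤ N := by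
    haveI := Fact.mk hp
    have := sub_one_mul_padicValNat_factorial (p := p) N
    rw [Nat.factorization_def _ hp, this]
    exact Nat.sub_le _ _
  have h3 : ((p : ℝ) - 1) * ((N.factorial).factorization p : ℝ) ≤ N := by
    have : (((p - 1 : ℕ) : ℝ)) * ((N.factorial).factorization p : ℝ) ≤ N := by exact_mod_cast h2
    rwa [Nat.cast_sub hp.one_lt.le, Nat.cast_one] at this
  have hp2 : (2 : ℝ) ≤ p := by exact_mod_cast hp.two_le
  have h4 : ∑ d ∈ Icc 1 N, ((d.factorization p : ℕ) : ℝ) = ((N.factorial).factorization p : ℝ) := by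
    rw [← h1]
    push_cast
    rfl
  rw [h4, le_div_iff₀ (by linarith)]
  have h5 : (0 : ℝ) ≤ ((N.factorial).factorization p : ℝ) := Nat.cast_nonneg _
  nlinarith

theorem log_eq {z x d : ℕ} (hd : d ∈ Sm (2 ^ z) x) :
    Real.log d = ∑ p ∈ Pm 1 (2 ^ z), ((d.factorization p : ℕ) : ℝ) * Real.log p := by
  obtain ⟨⟨h1, h2⟩, h3⟩ := mem_Sm.1 hd
  have e : (d : ℝ) = ∏ p ∈ d.primeFactors, (p : ℝ) ^ d.factorization p := by
    have := Nat.prod_factorization_pow_eq_self (n := d) (by omega)
    rw [Finsupp.prod, Nat.support_factorization] at this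
    conv_lhs => rw [← this]
    push_cast
    rfl
  conv_lhs => rw [e]
  rw [Real.log_prod (fun p hp => by
    have := (Nat.prime_of_mem_primeFactors hp).pos
    positivity)]
  rw [Finset.sum_congr rfl fun p _ => Real.log_pow _ _]
  apply Finset.sum_subset (s₁ := d.primeFactors)
  · intro p hp
    have hpp := Nat.prime_of_mem_primeFactors hp
    exact mem_Pm.2 ⟨⟨hpp.one_lt, h3 p hpp (Nat.dvd_of_mem_primeFactors hp)⟩, hpp⟩
  · intro p hp hnp
    have hpp := (mem_Pm.1 hp).2
    have : ¬ p ∣ d := fun h => hnp (Nat.mem_primeFactors.2 ⟨hpp, h, by omega⟩)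
    rw [Nat.factorization_eq_zero_of_not_dvd this]
    simp

/-- Upper bound for the number of smooth numbers. -/
theorem card_le (N m : ℕ) (hN : 2 ≤ N) :
    ((Sm (2 ^ m) N).card : ℝ) ≤ Real.sqrt N + 16 * N * m / Nat.log 2 N := by
  have hl2 : 0 < Real.log 2 := Real.log_pos (by norm_num)
  have hL : 1 ≤ Nat.log 2 N := Nat.log_pos (by norm_num) hN
  have hLR : (1 : ℝ) ≤ Nat.log 2 N := by exact_mod_cast hL
  have hNL : (Nat.log 2 N : ℝ) * Real.log 2 ≤ Real.log N := by
    rw [← Real.log_pow]
    apply Real.log_le_log (by positivity)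
    exact_mod_cast Nat.pow_log_le_self 2 (by omega)
  -- the sum of the logarithms
  have h1 : ∑ d ∈ Sm (2 ^ m) N, Real.log d ≤ 8 * Real.log 2 * m * N := by
    rw [Finset.sum_congr rfl fun d hd => log_eq hd, Finset.sum_comm]
    have h2 : ∀ p ∈ Pm 1 (2 ^ m), ∑ d ∈ Sm (2 ^ m) N, ((d.factorization p : ℕ) : ℝ) * Real.log p ≤
        2 * N * (Real.log p / p) := by
      intro p hp
      have hpp := (mem_Pm.1 hp).2
      rw [← Finset.sum_mul]
      have h3 : ∑ d ∈ Sm (2 ^ m) N, ((d.factorization p : ℕ) : ℝ) ≤ 2 * N / p := by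
        refine le_trans ?_ (sum_val N p hpp)
        apply Finset.sum_le_sum_of_subset_of_nonneg
        · intro d hd
          exact Finset.mem_Icc.2 (mem_Sm.1 hd).1
        · intro _ _ _
          exact Nat.cast_nonneg _
      have h4 : 0 ≤ Real.log p := Real.log_nonneg (by exact_mod_cast hpp.one_lt.le)
      calc _ ≤ 2 * N / p * Real.log p := mul_le_mul_of_nonneg_right h3 h4
        _ = 2 * N * (Real.log p / p) := by ring
    refine (Finset.sum_le_sum h2).trans ?_
    rw [← Finset.mul_sum]
    have h5 := log_le m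
    have h6 : (0 : ℝ) ≤ 2 * N := by positivity
    calc _ ≤ 2 * (N : ℝ) * (4 * Real.log 2 * m) := mul_le_mul_of_nonneg_left h5 h6
      _ = 8 * Real.log 2 * m * N := by ring
  -- splitting
  set S₁ := (Sm (2 ^ m) N).filter (fun d => d * d ≤ N) with hS₁
  set S₂ := (Sm (2 ^ m) N).filter (fun d => ¬ d * d ≤ N) with hS₂
  have hcard : (Sm (2 ^ m) N).card = S₁.card + S₂.card :=
    (Finset.card_filter_add_card_filter_not (s := Sm (2 ^ m) N) (fun d => d * d ≤ N)).symm
  have hc1 : (S₁.card : ℝ) ≤ Real.sqrt N := by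
    have h2 : S₁ ⊆ Icc 1 (Nat.sqrt N) := by
      intro d hd
      rw [hS₁, Finset.mem_filter] at hd
      exact Finset.mem_Icc.2 ⟨(mem_Sm.1 hd.1).1.1, Nat.le_sqrt.2 hd.2⟩
    have h3 := Finset.card_le_card h2
    rw [Nat.card_Icc, Nat.add_sub_cancel] at h3
    exact (by exact_mod_cast h3 : (S₁.card : ℝ) ≤ Nat.sqrt N).trans Real.nat_sqrt_le_real_sqrt
  have hc2 : (S₂.card : ℝ) ≤ 16 * N * m / Nat.log 2 N := by
    have h2 : (S₂.card : ℝ) * (Real.log N / 2) ≤ ∑ d ∈ S₂, Real.log d := by
      rw [← nsmul_eq_mul]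
      apply Finset.card_nsmul_le_sum
      intro d hd
      rw [hS₂, Finset.mem_filter] at hd
      have hd1 := (mem_Sm.1 hd.1).1.1
      have h3 : (N : ℝ) ≤ (d : ℝ) ^ 2 := by
        have : N ≤ d * d := by omega
        rw [sq]
        exact_mod_cast this
      have h4 : Real.log N ≤ 2 * Real.log d := by
        have : (2 : ℝ) * Real.log d = Real.log ((d : ℝ) ^ 2) := by
          rw [Real.log_pow]; norm_num
        rw [this]
        exact Real.log_le_log (by positivity) h3
      linarith
    have h3 : ∑ d ∈ S₂, Real.log d ≤ ∑ d ∈ Sm (2 ^ m) N, Real.log d := by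
      apply Finset.sum_le_sum_of_subset_of_nonneg (Finset.filter_subset _ _)
      intro d hd _
      exact Real.log_nonneg (by exact_mod_cast (mem_Sm.1 hd).1.1)
    have h4 : (S₂.card : ℝ) * ((Nat.log 2 N : ℝ) * Real.log 2 / 2) ≤ 8 * Real.log 2 * m * N := by
      refine le_trans ?_ ((h2.trans h3).trans h1)
      apply mul_le_mul_of_nonneg_left _ (Nat.cast_nonneg _)
      linarith
    rw [le_div_iff₀ (by linarith)]
    have h5 : ((S₂.card : ℝ) * Nat.log 2 N) * (Real.log 2 / 2) ≤ (16 * N * m) * (Real.log 2 / 2) := by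
      nlinarith
    exact le_of_mul_le_mul_right h5 (by positivity)
  rw [hcard]
  push_cast
  linarith

/-- The constants of the lower bound. -/
noncomputable def bet : ℕ → ℝ
  | 0 => 1
  | i + 1 => bet i / (34 * (i + 3))

theorem bet_pos (i : ℕ) : 0 < bet i := by
  induction i with
  | zero => norm_num [bet]
  | succ i ih => rw [bet]; positivity

theorem bet_le (i : ℕ) : bet (i + 1) ≤ bet i := by
  rw [bet]
  apply div_le_self (bet_pos i).le
  have : (0 : ℝ) ≤ i := Nat.cast_nonneg i
  linarith

theorem bet_le_one (i : ℕ) : bet i ≤ 1 := by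
  induction i with
  | zero => norm_num [bet]
  | succ i ih => exact (bet_le i).trans ih

/-- Lower bound for the number of smooth numbers. -/
theorem card_ge : ∃ m₀ : ℕ, 1 ≤ m₀ ∧ ∀ m : ℕ, m₀ ≤ m → ∀ i x : ℕ, x ≤ 16 ^ m * 4 ^ (m * i) →
    bet i * x ≤ ((Sm (16 ^ m) x).card : ℝ) := by
  obtain ⟨m₀, hm₀, h⟩ := inv_ge
  refine ⟨m₀, hm₀, fun m hm i => ?_⟩
  have hm1 : 1 ≤ m := hm₀.trans hm
  have base : ∀ x : ℕ, x ≤ 16 ^ m → ((Sm (16 ^ m) x).card : ℝ) = x := by
    intro x hx
    have : Sm (16 ^ m) x = Icc 1 x := by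
      ext d
      rw [mem_Sm, Finset.mem_Icc]
      refine ⟨fun h => h.1, fun h => ⟨h, fun p _ hpd => ?_⟩⟩
      exact (Nat.le_of_dvd h.1 hpd).trans (h.2.trans hx)
    rw [this, Nat.card_Icc, Nat.add_sub_cancel]
  induction i with
  | zero =>
      intro x hx
      rw [mul_zero, pow_zero, mul_one] at hx
      rw [base x hx, bet, one_mul]
  | succ i ih =>
      intro x hx
      by_cases hx16 : x ≤ 16 ^ m
      · rw [base x hx16]
        have := bet_le_one (i + 1)
        have : (0 : ℝ) ≤ x := Nat.cast_nonneg x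
        nlinarith
      push Not at hx16
      -- double counting
      set P := Pm (4 ^ m) (16 ^ m) with hP
      set T := P.sigma fun p => Sm (16 ^ m) (x / p) with hT
      have hfib : T.card ≤ (i + 3) * (T.image fun a => a.1 * a.2).card := by
        apply Finset.card_le_mul_card_image
        intro d hd
        obtain ⟨a, ha, rfl⟩ := Finset.mem_image.1 hd
        rw [hT, Finset.mem_sigma, mem_Sm] at ha
        have hap : 0 < a.1 := ((mem_Pm.1 ha.1).2).pos
        have hd0 : 0 < a.1 * a.2 := Nat.mul_pos hap ha.2.1.1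
        have hdx : a.1 * a.2 ≤ x := by
          have := Nat.mul_le_mul_left a.1 ha.2.1.2
          exact this.trans (Nat.mul_div_le x a.1)
        generalize a.1 * a.2 = d at hd0 hdx
        have hinj : (T.filter fun b => b.1 * b.2 = d).card ≤ (P.filter (· ∣ d)).card := by
          apply Finset.card_le_card_of_injOn (fun b => b.1)
          · intro b hb
            rw [Finset.mem_coe, Finset.mem_filter, hT, Finset.mem_sigma] at hb
            rw [Finset.mem_coe, Finset.mem_filter]
            exact ⟨hb.1.1, ⟨b.2, hb.2.symm⟩⟩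
          · rintro ⟨p, s⟩ hb ⟨p', s'⟩ hb' heq
            simp only at heq
            subst heq
            rw [Finset.mem_coe, Finset.mem_filter, hT, Finset.mem_sigma] at hb hb'
            have hp0 : 0 < p := ((mem_Pm.1 hb.1.1).2).pos
            have h1 : p * s = p * s' := hb.2.trans hb'.2.symm
            rw [Nat.eq_of_mul_eq_mul_left hp0 h1]
        refine hinj.trans ?_
        set F := P.filter (· ∣ d) with hF
        have hprod : ∏ p ∈ F, p ∣ d := by
          apply Finset.prod_primes_dvd
          · intro p hp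
            rw [hF, Finset.mem_filter] at hp
            exact (mem_Pm.1 hp.1).2.prime
          · intro p hp
            rw [hF, Finset.mem_filter] at hp
            exact hp.2
        have h1 : (4 ^ m) ^ F.card ≤ ∏ p ∈ F, p := by
          rw [← Finset.prod_const]
          apply Finset.prod_le_prod
          · intro _ _
            exact Nat.zero_le _
          · intro p hp
            rw [hF, Finset.mem_filter] at hp
            exact (mem_Pm.1 hp.1).1.1.le
        have h2 : (4 ^ m) ^ F.card ≤ (4 ^ m) ^ (i + 3) := by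
          calc (4 ^ m) ^ F.card ≤ ∏ p ∈ F, p := h1
            _ ≤ d := Nat.le_of_dvd hd0 hprod
            _ ≤ x := hdx
            _ ≤ 16 ^ m * 4 ^ (m * (i + 1)) := hx
            _ = (4 ^ m) ^ (i + 3) := by
              rw [show (16 : ℕ) = 4 ^ 2 by norm_num, ← pow_mul, ← pow_add, ← pow_mul]
              congr 1
              ring
        have h3 : 1 < 4 ^ m := Nat.one_lt_pow (by omega) (by norm_num)
        exact (Nat.pow_le_pow_iff_right h3).1 h2
      have himg : (T.image fun a => a.1 * a.2) ⊆ Sm (16 ^ m) x := by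
        intro d hd
        obtain ⟨a, ha, rfl⟩ := Finset.mem_image.1 hd
        rw [hT, Finset.mem_sigma, mem_Sm] at ha
        obtain ⟨ha1, ⟨ha2, ha3⟩, ha4⟩ := ha
        have hap := (mem_Pm.1 ha1).2
        refine mem_Sm.2 ⟨⟨Nat.mul_pos hap.pos ha2, ?_⟩, fun p hp hpd => ?_⟩
        · have := Nat.mul_le_mul_left a.1 ha3
          exact this.trans (Nat.mul_div_le x a.1)
        · rcases (hp.dvd_mul).1 hpd with h | h
          · rw [(Nat.prime_dvd_prime_iff_eq hp hap).1 h]
            exact (mem_Pm.1 ha1).1.2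
          · exact ha4 p hp h
      have h1 : (T.card : ℝ) ≤ (i + 3) * ((Sm (16 ^ m) x).card : ℝ) := by
        have := hfib.trans (Nat.mul_le_mul_left _ (Finset.card_le_card himg))
        exact_mod_cast this
      have h2 : bet i * x / 34 ≤ T.card := by
        rw [hT, Finset.card_sigma]
        push_cast
        have h3 : ∀ p ∈ P, bet i * x / 2 * (1 / p) ≤ ((Sm (16 ^ m) (x / p)).card : ℝ) := by
          intro p hp
          obtain ⟨⟨hp1, hp2⟩, hp3⟩ := mem_Pm.1 hp
          have hpx : p ≤ x := hp2.trans hx16.le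
          have h4 := ih (x / p) (by
            apply Nat.div_le_of_le_mul
            calc x ≤ 16 ^ m * 4 ^ (m * (i + 1)) := hx
              _ = 4 ^ m * (16 ^ m * 4 ^ (m * i)) := by
                rw [mul_add, mul_one, pow_add]; ring
              _ ≤ p * (16 ^ m * 4 ^ (m * i)) := Nat.mul_le_mul_right _ hp1.le)
          refine le_trans ?_ h4
          have hp0 : (0 : ℝ) < p := by exact_mod_cast hp3.pos
          have h5 : (x : ℝ) / (2 * p) ≤ ((x / p : ℕ) : ℝ) := by
            have h6 : 1 ≤ x / p := Nat.div_pos hpx hp3.pos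
            have h7 : x < p * (x / p + 1) := Nat.lt_mul_div_succ x hp3.pos
            have h8 : (x : ℝ) ≤ p * (((x / p : ℕ) : ℝ) + 1) := by exact_mod_cast h7.le
            have h9 : (1 : ℝ) ≤ ((x / p : ℕ) : ℝ) := by exact_mod_cast h6
            rw [div_le_iff₀ (by positivity)]
            nlinarith
          have h10 : bet i * x / 2 * (1 / p) = bet i * (x / (2 * p)) := by
            field_simp
          rw [h10]
          exact mul_le_mul_of_nonneg_left h5 (bet_pos i).le
        refine le_trans ?_ (Finset.sum_le_sum h3)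
        rw [← Finset.mul_sum]
        have h4 := h m hm
        have h5 : 0 ≤ bet i * x / 2 := by
          have := (bet_pos i).le
          positivity
        calc bet i * x / 34 = bet i * x / 2 * (1 / 17) := by ring
          _ ≤ _ := mul_le_mul_of_nonneg_left h4 h5
      rw [bet, div_mul_eq_mul_div, div_le_iff₀ (by positivity)]
      have := h2.trans h1
      linarith

end Smooth

end Pool.Agent.SDF
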